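import Pool.Agent.H31Cone.Defs
import Pool.Agent.H55.Cone.Final

/-!
Assembly: from `Covered` to a weak rational polyhedral covering.
-/

set_option autoImplicit false

namespace Pool.Agent.H31Cone

open Module Filter Topology Pool.Agent.H93Cone Pool.Agent.H55.Cone

variable {n : ℕ}

lemma ratCone_mono {S T : Finset (Fin n → ℚ)} (h : S ⊆ T) : ratCone S ⊆ ratCone T := by
  unfold ratCone
  exact Submodule.span_mono (Set.image_mono (Finset.coe_subset.2 h))

lemma ratCone_subset_of (K : PointedCone ℝ (Fin n → ℝ)) (S : Finset (Fin n → ℚ))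
    (h : ∀ v ∈ S, ratVec v ∈ K) : ratCone S ⊆ (K : Set (Fin n → ℝ)) := by
  unfold ratCone
  refine Submodule.span_le.2 ?_
  rintro _ ⟨v, hv, rfl⟩
  exact h v (Finset.mem_coe.1 hv)

lemma mem_ratCone {S : Finset (Fin n → ℚ)} {v : Fin n → ℚ} (h : v ∈ S) :
    ratVec v ∈ ratCone S := by
  unfold ratCone
  exact Submodule.subset_span ⟨v, Finset.mem_coe.2 h, rfl⟩

/-- A compact set of locally covered points lies in one rational polyhedral cone. -/
lemma exists_cone_of_compact (Nef Eff : PointedCone ℝ (Fin n → ℝ)) (C : Set (Fin n → ℝ))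
    (hC : IsCompact C) (hCN : C ⊆ (Nef : Set (Fin n → ℝ)))
    (hgood : ∀ x ∈ C, ∃ S : Finset (Fin n → ℚ),
      ratCone S ⊆ (Nef : Set (Fin n → ℝ)) ∩ (Eff : Set (Fin n → ℝ)) ∧
      ratCone S ∈ 𝓝[(Nef : Set (Fin n → ℝ))] x) :
    ∃ S : Finset (Fin n → ℚ),
      ratCone S ⊆ (Nef : Set (Fin n → ℝ)) ∩ (Eff : Set (Fin n → ℝ)) ∧ C ⊆ ratCone S := by
  classical
  refine hC.induction_on (p := fun C => ∃ S : Finset (Fin n → ℚ),
      ratCone S ⊆ (Nef : Set (Fin n → ℝ)) ∩ (Eff : Set (Fin n → ℝ)) ∧ C ⊆ ratCone S)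
      ?_ ?_ ?_ ?_
  · refine ⟨∅, ?_, Set.empty_subset _⟩
    intro y hy
    exact ⟨ratCone_subset_of Nef ∅ (by simp) hy, ratCone_subset_of Eff ∅ (by simp) hy⟩
  · rintro s t hst ⟨S, h1, h2⟩
    exact ⟨S, h1, hst.trans h2⟩
  · rintro s t ⟨S, h1, h2⟩ ⟨T, h3, h4⟩
    refine ⟨S ∪ T, ?_, Set.union_subset (h2.trans (ratCone_mono Finset.subset_union_left))
      (h4.trans (ratCone_mono Finset.subset_union_right))⟩
    have hmem : ∀ v ∈ S ∪ T, ratVec v ∈ Nef ∧ ratVec v ∈ Eff := by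
      intro v hv
      rcases Finset.mem_union.1 hv with h | h
      · exact h1 (mem_ratCone h)
      · exact h3 (mem_ratCone h)
    intro y hy
    exact ⟨ratCone_subset_of Nef _ (fun v hv => (hmem v hv).1) hy,
      ratCone_subset_of Eff _ (fun v hv => (hmem v hv).2) hy⟩
  · intro x hx
    obtain ⟨S, h1, h2⟩ := hgood x hx
    exact ⟨ratCone S, nhdsWithin_mono x hCN h2, S, h1, le_refl _⟩

theorem assemble (Nef Eff : PointedCone ℝ (Fin n → ℝ))
    (hampleEff : interior (Nef : Set (Fin n → ℝ)) ⊆ (Eff : Set (Fin n → ℝ)))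
    (G : Subgroup (GL (Fin n) ℤ)) (e : Fin n → ℚ) (heN : ratVec e ∈ Nef) (heE : ratVec e ∈ Eff)
    (hloc : ∀ x ∈ Nef, ∀ t : ℝ, 0 ≤ t →
      x + t • ratVec e ∈ interior (Eff : Set (Fin n → ℝ)) →
      ∃ S : Finset (Fin n → ℚ),
        ratCone S ⊆ (Nef : Set (Fin n → ℝ)) ∩ (Eff : Set (Fin n → ℝ)) ∧
        ratCone S ∈ 𝓝[(Nef : Set (Fin n → ℝ))] x)
    (Γ : Set (Matrix (Fin n) (Fin n) ℤ)) (hΓ : ∀ g ∈ Γ, ∃ γ ∈ G, (γ : GL (Fin n) ℤ).val = g)
    (hcov : Covered Γ Nef (ratVec e)) :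
    ∃ S : Finset (Fin n → ℚ),
      ratCone S ⊆ (Nef : Set (Fin n → ℝ)) ∩ (Eff : Set (Fin n → ℝ)) ∧
      interior (Nef : Set (Fin n → ℝ)) ⊆ translates G (ratCone S) := by
  classical
  obtain ⟨C, hCc, hCN, hCint, hCcov⟩ := hcov
  have hopen : interior (Nef : Set (Fin n → ℝ)) ⊆ interior (Eff : Set (Fin n → ℝ)) :=
    interior_maximal hampleEff isOpen_interior
  obtain ⟨S, hS1, hS2⟩ := exists_cone_of_compact Nef Eff C hCc hCN (fun x hx => by
    obtain ⟨t, ht, hxt⟩ := hCint x hx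
    exact hloc x (hCN hx) t ht (hopen hxt))
  have hmem : ∀ v ∈ insert e S, ratVec v ∈ Nef ∧ ratVec v ∈ Eff := by
    intro v hv
    rcases Finset.mem_insert.1 hv with h | h
    · rw [h]; exact ⟨heN, heE⟩
    · exact hS1 (mem_ratCone h)
  refine ⟨insert e S, ?_, ?_⟩
  · intro y hy
    exact ⟨ratCone_subset_of Nef _ (fun v hv => (hmem v hv).1) hy,
      ratCone_subset_of Eff _ (fun v hv => (hmem v hv).2) hy⟩
  · intro y hy
    obtain ⟨g, hg, c, hc, t, ht, w, hw, hgy⟩ := hCcov y hy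
    obtain ⟨γ, hγ, hγg⟩ := hΓ g hg
    rw [mem_translates]
    refine ⟨γ⁻¹, G.inv_mem hγ, act g y, ?_, ?_⟩
    · rw [hgy]
      have h1 : w ∈ ratCone (insert e S) := ratCone_mono (Finset.subset_insert e S) (hS2 hw)
      have h2 : ratVec e ∈ ratCone (insert e S) := mem_ratCone (Finset.mem_insert_self e S)
      unfold ratCone at h1 h2 ⊢
      exact Submodule.add_mem _ (PointedCone.smul_mem _ hc.le h1)
        (PointedCone.smul_mem _ ht h2)
    · rw [← hγg, ← act_mul_apply]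
      have : (γ⁻¹ : GL (Fin n) ℤ).val * (γ : GL (Fin n) ℤ).val = 1 := by
        rw [← Units.val_mul, inv_mul_cancel, Units.val_one]
      rw [this, act_one]
      rfl

end Pool.Agent.H31Cone
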