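import Pool.Agent.H31Cone.Defs

/-!
The two cases: unipotent, or `n` distinct characters.

PROOF. `c = card (Chars φ)`.
(1) `triv_mem`: the trivial character is in `Chars φ`. Let `W ⊆ (Fin n → ℂ)` be the intersection
over `j` of the generalized eigenspaces for the eigenvalue 1 of `lc (φ (single j 1))`. It is
invariant (commuting operators) and nonzero: for one operator `T`, on the sum of the generalized
eigenspaces for eigenvalues `≠ 1` the map `T - 1` is bijective, so that sum is inside
`e^⊥ = {η | η ⬝ᵥ cvec e = 0}` (as `(T η - η) ⬝ᵥ cvec e = 0`, `dot_cvec_qa`); one obtains step by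
step that the intersection is not contained in `e^⊥`. (Alternative: the operators
`lc (φ z)` act on the invariant subspace `e^⊥` and trivially on the quotient; or restrict a
triangularisation; any proof is fine.) By `exists_common_eigvec` `W` contains a common
eigenvector, whose eigenvalues for the generators are 1, so `χ = 1`.
(2) if `2 ≤ c` then `finrank (range Lam) + 2 ≤ c`: the span of `range (Lam h)` lies in
`H = {v | v triv = 0}` of dimension `c - 1`. If it were all of `H`, then `v = -1` off the trivial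
character and `0` at it is in the span, `lam_mem_span` gives `z` with `‖χ z‖ < 1` for all nontrivial
`χ` and `‖triv z‖ = 1`; by `exists_char_of_isRoot` all roots of `cp (φ z)` have norm `≤ 1` and at
least one (`char_isRoot` of a nontrivial `χ`) has norm `< 1`, so `‖det‖ < 1`, contradicting
`norm_det` (see the proof of `exists_small_root`). Then `discrete_range` and `finrank_range_le`
(second part: finrank of the real span is the rank of the range).
(3) as in the proof of `chars_card` (Weights5): if `ker (Lam h)` is nonzero then `J = Jsub φ ≠ ⊥`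
and `finrank (ker Lam) < finrank J`, with `finrank J + c ≤ n` (`Jsub_card`). In this case
`2 ≤ c` would give `r = n - 2 ≤ (c - 2) + (finrank J - 1) ≤ n - 3`. So `c = 1`, the only character
is the trivial one, all roots of `cp (φ z)` are 1, `charpoly = (X - 1)^n` and Cayley-Hamilton gives
the first alternative. If `ker (Lam h) = ⊥` then `c = 1` is impossible (`Lam = 0`, `1 ≤ r`), so
`2 ≤ c`, `n - 2 = r = finrank range ≤ c - 2`, `c ≤ n` by `Jsub_card`, so `c = n`.
-/

set_option autoImplicit false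

namespace Pool.Agent.H31Cone

open Module Pool.Agent.H93Cone

lemma triv_mem {r n : ℕ} {φ : (Fin r → ℤ) → Matrix (Fin n) (Fin n) ℤ} (h : IsRep φ)
    (e : Fin n → ℚ) (he0 : e ≠ 0) (he : ∀ z, qa (φ z) e = e) :
    (fun _ => (1 : ℂ)) ∈ Chars φ := by
  classical
  let T : (Fin r → ℤ) → Module.End ℂ (Fin n → ℂ) := fun z => lc (φ z)
  have hcomm : Pairwise (fun i j => Commute (T i) (T j)) := by
    intro i j _
    exact LinearMap.ext fun v => lc_comm h i j v
  have htop := Module.End.iSup_iInf_maxGenEigenspace_eq_top_of_iSup_maxGenEigenspace_eq_top_of_commute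
    T hcomm (fun z => Module.End.iSup_maxGenEigenspace_eq_top (T z))
  let L : (Fin n → ℂ) →ₗ[ℂ] ℂ :=
    { toFun := fun η => η ⬝ᵥ cvec e
      map_add' := fun a b => add_dotProduct a b _
      map_smul' := fun c a => by rw [smul_dotProduct]; rfl }
  have hL : ∀ η, L η = η ⬝ᵥ cvec e := fun η => rfl
  have hLT : ∀ z η, L (T z η) = L η := by
    intro z η
    rw [hL, hL, ← dot_cvec_qa, he z]
  have hL0 : L ≠ 0 := by
    intro h0
    apply he0
    funext j
    have h1 : L (Pi.single j 1) = 0 := by rw [h0]; rfl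
    rw [hL, single_dotProduct, one_mul] at h1
    have h2 : ((e j : ℚ) : ℂ) = 0 := h1
    exact_mod_cast h2
  obtain ⟨χ, hχ⟩ : ∃ χ : (Fin r → ℤ) → ℂ,
      ¬ (⨅ z, (T z).maxGenEigenspace (χ z)) ≤ LinearMap.ker L := by
    by_contra hcon
    push Not at hcon
    have h1 : (⊤ : Submodule ℂ (Fin n → ℂ)) ≤ LinearMap.ker L := by
      rw [← htop]
      exact iSup_le hcon
    exact hL0 (LinearMap.ker_eq_top.1 (top_le_iff.1 h1))
  obtain ⟨η, hη, hη0⟩ := SetLike.not_le_iff_exists.1 hχ
  have hη0' : L η ≠ 0 := hη0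
  rw [Submodule.mem_iInf] at hη
  have hone : ∀ z, χ z = 1 := by
    intro z
    obtain ⟨k, hk⟩ := (Module.End.mem_maxGenEigenspace (T z) (χ z) η).1 (hη z)
    have key : ∀ k : ℕ, ∀ η : Fin n → ℂ,
        L (((T z - (χ z) • (1 : Module.End ℂ (Fin n → ℂ))) ^ k) η) = (1 - χ z) ^ k * L η := by
      intro k
      induction k with
      | zero => intro η; rw [pow_zero, pow_zero, one_mul]; rfl
      | succ k ih =>
        intro η
        rw [pow_succ, Module.End.mul_apply, ih, LinearMap.sub_apply, map_sub, hLT,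
          LinearMap.smul_apply, Module.End.one_apply, map_smul, smul_eq_mul]
        ring
    have h1 := key k η
    rw [hk, map_zero] at h1
    have h2 : (1 - χ z) ^ k = 0 := by
      rcases mul_eq_zero.1 h1.symm with h3 | h3
      · exact h3
      · exact absurd h3 hη0'
    have hk0 : k ≠ 0 := by
      rintro rfl
      rw [pow_zero] at h2
      exact one_ne_zero h2
    exact (sub_eq_zero.1 ((pow_eq_zero_iff hk0).1 h2)).symm
  set W : Submodule ℂ (Fin n → ℂ) := ⨅ z, (T z).maxGenEigenspace (χ z) with hW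
  have hWbot : W ≠ ⊥ := by
    rw [Submodule.ne_bot_iff]
    refine ⟨η, (Submodule.mem_iInf _).2 hη, ?_⟩
    intro h0
    apply hη0'
    rw [h0, map_zero]
  have hWinv : ∀ z, ∀ v ∈ W, T z v ∈ W := by
    intro z v hv
    rw [hW, Submodule.mem_iInf] at hv ⊢
    intro w
    have hc : Commute (T w) (T z) := LinearMap.ext fun v => lc_comm h w z v
    exact Module.End.mapsTo_maxGenEigenspace_of_comm hc (χ w) (hv w)
  obtain ⟨v, hv, hv0, hv1⟩ := exists_common_eigvec (fun z => T z)
    (fun i j v => lc_comm h i j v) W hWbot hWinv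
  refine ⟨v, hv0, fun z => ?_⟩
  obtain ⟨μ, hμ⟩ := hv1 z
  have hμ' : T z v = μ • v := hμ
  rw [hW, Submodule.mem_iInf] at hv
  obtain ⟨k, hk⟩ := (Module.End.mem_maxGenEigenspace (T z) (χ z) v).1 (hv z)
  have key : ∀ k : ℕ, ((T z - (χ z) • (1 : Module.End ℂ (Fin n → ℂ))) ^ k) v
      = (μ - χ z) ^ k • v := by
    intro k
    induction k with
    | zero => rw [pow_zero, pow_zero, one_smul]; rfl
    | succ k ih =>
      rw [pow_succ, Module.End.mul_apply, LinearMap.sub_apply, hμ', LinearMap.smul_apply,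
        Module.End.one_apply, ← sub_smul, map_smul, ih, smul_smul]
      congr 1
      ring
  rw [key] at hk
  have h2 : (μ - χ z) ^ k = 0 := by
    rcases smul_eq_zero.1 hk with h3 | h3
    · exact h3
    · exact absurd h3 hv0
  have h3 : μ = 1 := by
    have hk0 : k ≠ 0 := by
      rintro rfl
      rw [pow_zero] at h2
      exact one_ne_zero h2
    have h4 := (pow_eq_zero_iff hk0).1 h2
    rw [hone z] at h4
    exact sub_eq_zero.1 h4
  show lc (φ z) v = (1 : ℂ) • v
  rw [← h3]
  exact hμ'

/-- If the logarithmic map has a kernel then the rank of the kernel is less than the dimension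
of `Jsub`. -/
lemma ker_lt_Jsub {r n : ℕ} {φ : (Fin r → ℤ) → Matrix (Fin n) (Fin n) ℤ} (h : IsRep φ)
    (x : Fin n → ℚ) (hx : ∀ z, Nq φ z (Nq φ z x) = 0 → z = 0)
    (hpos : finrank ℤ (LinearMap.ker (Lam h)) ≠ 0) :
    finrank ℤ (LinearMap.ker (Lam h)) < finrank ℚ (Jsub φ) := by
  classical
  obtain ⟨m, hm, hunip⟩ := exists_unipotent_power h
  -- the unipotent family
  set U := LinearMap.ker (Lam h) with hU
  let N : U → (Fin n → ℚ) →ₗ[ℚ] (Fin n → ℚ) := fun z => Nq φ (m • z.1)
  have hN : ∀ z v, N z v = qa (φ (m • z.1)) v - v := fun z v => rfl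
  have hadd : ∀ a b v, N (a + b) v = N a (N b v) + N a v + N b v := by
    intro a b v
    have e : m • (a + b).1 = m • a.1 + m • b.1 := by
      show m • (a.1 + b.1) = _
      rw [smul_add]
    rw [hN, hN, hN, hN, e, h.add, qa_mul, map_sub]
    abel
  have hzero : ∀ v, N 0 v = 0 := by
    intro v
    have e : m • (0 : U).1 = 0 := by
      show m • (0 : Fin r → ℤ) = 0
      rw [smul_zero]
    rw [hN, e, h.zero, qa_one, sub_self]
  have hcomm : ∀ a b v, N a (N b v) = N b (N a v) := by
    intro a b v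
    rw [hN, hN, hN, hN, map_sub, map_sub, ← qa_mul, ← qa_mul, h.comm]
    abel
  have hnil : ∀ a v, ((N a)^[n]) v = 0 := by
    intro a v
    have h1 := (hunip a.1 a.2).2
    have key : ∀ l : ℕ, ∀ v, ((N a)^[l]) v = qa ((φ (m • a.1) - 1) ^ l) v := by
      intro l
      induction l with
      | zero => intro v; rw [pow_zero, qa_one]; rfl
      | succ l ih =>
        intro v
        rw [Function.iterate_succ_apply, ih, pow_succ, qa_mul, hN]
        congr 1
        have : qa (φ (m • a.1) - 1) v = qa (φ (m • a.1)) v - qa 1 v := by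
          show ((φ (m • a.1) - 1).map (Int.cast : ℤ → ℚ)).mulVec v = _
          have e : (φ (m • a.1) - 1).map (Int.cast : ℤ → ℚ)
              = (φ (m • a.1)).map (Int.cast : ℤ → ℚ)
                - (1 : Matrix (Fin n) (Fin n) ℤ).map (Int.cast : ℤ → ℚ) := by
            ext i j; by_cases hij : i = j <;> simp [Matrix.one_apply, hij]
          rw [e, Matrix.sub_mulVec]
          rfl
        rw [this, qa_one]
    rw [key, h1]
    show ((0 : Matrix (Fin n) (Fin n) ℤ).map (Int.cast : ℤ → ℚ)).mulVec v = 0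
    simp
  have hx' : ∀ a, N a (N a x) = 0 → a = 0 := by
    intro a ha
    have h1 := hx (m • a.1) ha
    have h2 : a.1 = 0 := by
      rcases smul_eq_zero.1 h1 with h3 | h3
      · omega
      · exact h3
    exact Subtype.ext h2
  have hJmem : ∀ (a : U) v, N a v ∈ Jsub φ := by
    intro a v
    rw [mem_Jsub]
    intro χ
    have h1 : cvec (N a v) = cvec (qa (φ (m • a.1)) v) - cvec v := by
      funext j; simp [cvec, hN]
    rw [h1, dotProduct_sub, dot_cvec_qa, lc_eigv, (hunip a.1 a.2).1 χ, one_smul, sub_self]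
  have hJinv : ∀ a, ∀ v ∈ Jsub φ, N a v ∈ Jsub φ := fun a v _ => hJmem a v
  have hnt : Nontrivial U := by
    rw [← not_subsingleton_iff_nontrivial]
    intro hs
    exact hpos (finrank_zero_of_subsingleton)
  have hJbot : Jsub φ ≠ ⊥ := by
    obtain ⟨a, ha⟩ := exists_ne (0 : U)
    rw [Submodule.ne_bot_iff]
    refine ⟨N a x, hJmem a x, fun h0 => ha (hx' a ?_)⟩
    rw [h0, map_zero]
  have hrank := unipotent_rank N hadd hzero hcomm n hnil x hx' (Jsub φ) hJbot hJinv
  have htop : mover N hadd hzero x (Jsub φ) hJinv = ⊤ := by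
    rw [eq_top_iff]
    intro a _
    exact hJmem a x
  rwa [htop, finrank_top] at hrank

/-- Product of a multiset of complex numbers of norm at most one, one of norm less than one. -/
lemma norm_prod_lt_one (S : Multiset ℂ) (hS : ∀ x ∈ S, ‖x‖ ≤ 1) (x : ℂ) (hx : x ∈ S)
    (hx1 : ‖x‖ < 1) : ‖S.prod‖ < 1 := by
  have key : ∀ S : Multiset ℂ, (∀ x ∈ S, ‖x‖ ≤ 1) → ‖S.prod‖ ≤ 1 := by
    intro S
    induction S using Multiset.induction_on with
    | empty => intro _; simp
    | cons a S ih =>
      intro hS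
      rw [Multiset.prod_cons, norm_mul]
      have ha := hS a (Multiset.mem_cons_self a S)
      have hS' := ih fun x hx => hS x (Multiset.mem_cons_of_mem hx)
      calc ‖a‖ * ‖S.prod‖ ≤ 1 * 1 := mul_le_mul ha hS' (norm_nonneg _) zero_le_one
        _ = 1 := one_mul 1
  obtain ⟨S', rfl⟩ := Multiset.exists_cons_of_mem hx
  rw [Multiset.prod_cons, norm_mul]
  have h1 := key S' fun y hy => hS y (Multiset.mem_cons_of_mem hy)
  calc ‖x‖ * ‖S'.prod‖ ≤ ‖x‖ * 1 := mul_le_mul_of_nonneg_left h1 (norm_nonneg _)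
    _ < 1 := by rwa [mul_one]

/-- Rank bound for the logarithms when the trivial character occurs and is not the only one. -/
lemma finrank_span_add_two {r n : ℕ} {φ : (Fin r → ℤ) → Matrix (Fin n) (Fin n) ℤ} (h : IsRep φ)
    [Fintype (Chars φ)] (ht : (fun _ => (1 : ℂ)) ∈ Chars φ) (hc : 2 ≤ Fintype.card (Chars φ)) :
    finrank ℝ (Submodule.span ℝ (Set.range (Lam h))) + 2 ≤ Fintype.card (Chars φ) := by
  classical
  set t : Chars φ := ⟨_, ht⟩ with htdef
  have ht1 : ∀ z, t.1 z = 1 := fun z => rfl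
  let H : Submodule ℝ (Chars φ → ℝ) := LinearMap.ker (LinearMap.proj t : (Chars φ → ℝ) →ₗ[ℝ] ℝ)
  have hmemH : ∀ v : Chars φ → ℝ, v ∈ H ↔ v t = 0 := by
    intro v
    show v ∈ LinearMap.ker (LinearMap.proj t : (Chars φ → ℝ) →ₗ[ℝ] ℝ) ↔ _
    rw [LinearMap.mem_ker]
    rfl
  have hle : Submodule.span ℝ (Set.range (Lam h)) ≤ H := by
    rw [Submodule.span_le]
    rintro _ ⟨z, rfl⟩
    show Lam h z ∈ H
    rw [hmemH, Lam_apply, ht1, norm_one, Real.log_one]
  obtain ⟨χ₁, hχ₁⟩ : ∃ χ : Chars φ, χ ≠ t := by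
    have : Nontrivial (Chars φ) := Fintype.one_lt_card_iff_nontrivial.1 hc
    exact exists_ne t
  have hne : Submodule.span ℝ (Set.range (Lam h)) ≠ H := by
    intro heq
    set v : Chars φ → ℝ := fun χ => if χ = t then 0 else -1 with hv
    have hvH : v ∈ Submodule.span ℝ (Set.range (Lam h)) := by
      rw [heq, hmemH, hv]
      simp
    obtain ⟨C, hC⟩ := lam_mem_span h v hvH
    obtain ⟨z, hz⟩ := hC (|C| + 1)
    have hlt : ∀ χ : Chars φ, χ ≠ t → ‖χ.1 z‖ < 1 := by
      intro χ hχ
      have h1 := (abs_le.1 (hz χ)).2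
      have h2 : v χ = -1 := by rw [hv]; simp [hχ]
      rw [h2] at h1
      have h3 := le_abs_self C
      have h4 : Lam h z χ < 0 := by linarith
      rw [Lam_apply] at h4
      by_contra hcon
      rw [not_lt] at hcon
      linarith [Real.log_nonneg hcon]
    have hle1 : ∀ χ : Chars φ, ‖χ.1 z‖ ≤ 1 := by
      intro χ
      by_cases hχ : χ = t
      · rw [hχ, ht1, norm_one]
      · exact (hlt χ hχ).le
    have h1 := norm_det h z
    rw [Matrix.det_eq_prod_roots_charpoly] at h1
    have h2 : ‖((φ z).map (Int.cast : ℤ → ℂ)).charpoly.roots.prod‖ < 1 := by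
      refine norm_prod_lt_one _ ?_ (χ₁.1 z) ?_ (hlt χ₁ hχ₁)
      · intro y hy
        have h2 : (cp (φ z)).IsRoot y := by
          rw [cp_eq]
          exact (Polynomial.mem_roots (Matrix.charpoly_monic _).ne_zero).1 hy
        obtain ⟨χ, hχ⟩ := exists_char_of_isRoot h z y h2
        rw [← hχ]
        exact hle1 χ
      · rw [Polynomial.mem_roots (Matrix.charpoly_monic _).ne_zero, ← cp_eq]
        exact char_isRoot χ₁ z
    linarith
  have hlt : Submodule.span ℝ (Set.range (Lam h)) < H := lt_of_le_of_ne hle hne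
  have h1 := Submodule.finrank_lt_finrank_of_lt hlt
  have h2 : finrank ℝ H + 1 = Fintype.card (Chars φ) := by
    have h3 := LinearMap.finrank_range_add_finrank_ker
      (LinearMap.proj t : (Chars φ → ℝ) →ₗ[ℝ] ℝ)
    rw [LinearMap.range_eq_top.2 (LinearMap.proj_surjective t), finrank_top,
      finrank_fintype_fun_eq_card, Module.finrank_self] at h3
    rw [← h3, add_comm]
  omega

/-- If all values of all characters at `w` are 1 then `φ w` is unipotent. -/
lemma unipotent_of_chars {r n : ℕ} {φ : (Fin r → ℤ) → Matrix (Fin n) (Fin n) ℤ} (h : IsRep φ)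
    (w : Fin r → ℤ) (hone : ∀ χ : Chars φ, χ.1 w = 1) : (φ w - 1) ^ n = 0 := by
  classical
  -- the characteristic polynomial is `(X - 1)^n`
  have hroots : ∀ x ∈ ((φ w).map (Int.cast : ℤ → ℂ)).charpoly.roots, x = 1 := by
    intro x hx
    have h2 : (cp (φ w)).IsRoot x := by
      rw [cp_eq]
      exact (Polynomial.mem_roots (Matrix.charpoly_monic _).ne_zero).1 hx
    obtain ⟨χ, hχ⟩ := exists_char_of_isRoot h w x h2
    rw [← hχ]; exact hone χ
  have hchar : ((φ w).map (Int.cast : ℤ → ℂ)).charpoly = (Polynomial.X - Polynomial.C 1) ^ n := by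
    have hs := IsAlgClosed.splits ((φ w).map (Int.cast : ℤ → ℂ)).charpoly
    have hcard : ((φ w).map (Int.cast : ℤ → ℂ)).charpoly.roots.card = n := by
      rw [Polynomial.splits_iff_card_roots.1 hs, Matrix.charpoly_natDegree_eq_dim]
      simp
    have hrep : ((φ w).map (Int.cast : ℤ → ℂ)).charpoly.roots = Multiset.replicate n 1 :=
      Multiset.eq_replicate.2 ⟨hcard, hroots⟩
    rw [hs.eq_prod_roots_of_monic (Matrix.charpoly_monic _), hrep]
    simp
  have hCH := Matrix.aeval_self_charpoly ((φ w).map (Int.cast : ℤ → ℂ))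
  rw [hchar] at hCH
  simp only [map_pow, map_sub, Polynomial.aeval_X, Polynomial.aeval_C, map_one] at hCH
  have hinj : Function.Injective (fun g : Matrix (Fin n) (Fin n) ℤ =>
      g.map (Int.cast : ℤ → ℂ)) := by
    intro a b hab
    ext i j
    have := congrFun (congrFun hab i) j
    simpa using this
  apply hinj
  have hmap : ((φ w - 1) ^ n).map (Int.cast : ℤ → ℂ)
      = ((φ w).map (Int.cast : ℤ → ℂ) - 1) ^ n := by
    have e := map_pow ((Int.castRingHom ℂ).mapMatrix) (φ w - 1) n
    rw [map_sub, map_one] at e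
    exact e
  show ((φ w - 1) ^ n).map (Int.cast : ℤ → ℂ) = (0 : Matrix (Fin n) (Fin n) ℤ).map _
  rw [hmap, hCH]
  ext i j; simp

theorem two_cases {r n : ℕ} {φ : (Fin r → ℤ) → Matrix (Fin n) (Fin n) ℤ} (hr : r + 2 = n)
    (hr1 : 1 ≤ r) (h : IsRep φ) [Fintype (Chars φ)]
    (e : Fin n → ℚ) (he0 : e ≠ 0) (he : ∀ z, qa (φ z) e = e) (x : Fin n → ℚ)
    (hx : ∀ z, Nq φ z (Nq φ z x) = 0 → z = 0) :
    (∀ z, (φ z - 1) ^ n = 0) ∨
      (Fintype.card (Chars φ) = n ∧
        finrank ℝ (Submodule.span ℝ (Set.range (Lam h))) = r) := by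
  classical
  have hn : 0 < n := by omega
  have ht := triv_mem h e he0 he
  rcases Nat.lt_or_ge (Fintype.card (Chars φ)) 2 with hc | hc
  · left
    intro z
    refine unipotent_of_chars h z fun χ => ?_
    have hs : Subsingleton (Chars φ) := Fintype.card_le_one_iff_subsingleton.1 (by omega)
    have h1 : χ = ⟨_, ht⟩ := Subsingleton.elim _ _
    rw [h1]
  · right
    obtain ⟨_, h1⟩ := finrank_range_le hn h
    have h2 := finrank_span_add_two h ht hc
    have h3 := finrank_ker_add h
    have h4 := Jsub_card h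
    by_cases hk : finrank ℤ (LinearMap.ker (Lam h)) = 0
    · refine ⟨by omega, by omega⟩
    · have h5 := ker_lt_Jsub h x hx hk
      omega

end Pool.Agent.H31Cone
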