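import Pool.Agent.H31Cone.Defs

/-!
Three lemmas on commuting nilpotent operators `N a = γ_a - 1` (a in a free abelian group).

PROOFS.
(1) `mover_add_le`. Strong induction on `finrank W'`. If `W = W'` there is nothing to prove (the
two movers are equal). Otherwise put `W₁ = W ⊔ span {N a v | a, v ∈ W'}`. Then `W ≤ W₁ ≤ W'`, `W₁`
is invariant, `N a` maps `W'` into `W₁`, and `W₁ ≠ W'`: else, with `W₂ < W'` from
`exists_smaller` applied in the quotient `W' / W` (or directly: let `k` be minimal such that all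
lists of length `k` map `W'` into `W`, see (2); if `W' = W + N W'` then lists of length `k - 1`
already map `W'` into `W`). An alternative that avoids this: apply `exists_smaller` to the
quotient space `V ⧸ W`, the operators `W.mapQ W (N a)` and the image of `W'`; pull the result
back. As in the proof of `unipotent_rank` (Weights4, copy from there) the additive map
`mover W' → V / W₁` has kernel `mover W₁` and lands in `W' / W₁`, so
`rank (mover W') ≤ rank (mover W₁) + (finrank W' - finrank W₁)`; induction for `W ≤ W₁`.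
(2) `app_eq_zero`. Induction on `finrank W` with `exists_smaller`: if `W = ⊥` trivial; otherwise
`W₁ < W` and the last letter of the list maps `W` into `W₁`, the remaining list has length
`≥ finrank W₁`.
(3) `exists_fixed`. Take a nonzero invariant subspace of `W` of minimal dimension and
`exists_smaller`: the smaller one is `⊥`.
-/

set_option autoImplicit false

namespace Pool.Agent.H31Cone

open Module Pool.Agent.H93Cone

section
variable {A V : Type} [AddCommGroup V] [Module ℚ V] (N : A → V →ₗ[ℚ] V)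

@[simp] lemma app_nil (v : V) : app N [] v = v := rfl

@[simp] lemma app_cons (a : A) (l : List A) (v : V) : app N (a :: l) v = N a (app N l v) := rfl

lemma app_append (l l' : List A) (v : V) : app N (l ++ l') v = app N l (app N l' v) := by
  simp only [app, List.foldr_append]

lemma app_add (l : List A) (v w : V) : app N l (v + w) = app N l v + app N l w := by
  induction l with
  | nil => rfl
  | cons a l ih => rw [app_cons, app_cons, app_cons, ih, map_add]

lemma app_smul (l : List A) (c : ℚ) (v : V) : app N l (c • v) = c • app N l v := by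
  induction l with
  | nil => rfl
  | cons a l ih => rw [app_cons, app_cons, ih, map_smul]

lemma app_comm (hcomm : ∀ a b v, N a (N b v) = N b (N a v)) (a : A) (l : List A) (v : V) :
    N a (app N l v) = app N l (N a v) := by
  induction l with
  | nil => rfl
  | cons b l ih => rw [app_cons, app_cons, hcomm, ih]

lemma app_mem (W : Submodule ℚ V) (hinv : ∀ a, ∀ v ∈ W, N a v ∈ W) (l : List A) (v : V)
    (hv : v ∈ W) : app N l v ∈ W := by
  induction l with
  | nil => exact hv
  | cons a l ih => rw [app_cons]; exact hinv a _ ih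

lemma app_eq_zero [FiniteDimensional ℚ V] (hcomm : ∀ a b v, N a (N b v) = N b (N a v)) (k : ℕ)
    (hnil : ∀ a v, ((N a)^[k]) v = 0) (W : Submodule ℚ V) (hinv : ∀ a, ∀ v ∈ W, N a v ∈ W)
    (l : List A) (hl : finrank ℚ W ≤ l.length) (v : V) (hv : v ∈ W) : app N l v = 0 := by
  suffices H : ∀ d : ℕ, ∀ W : Submodule ℚ V, finrank ℚ W = d →
      (∀ a, ∀ v ∈ W, N a v ∈ W) → ∀ l : List A, d ≤ l.length → ∀ v ∈ W, app N l v = 0 from
    H _ W rfl hinv l hl v hv
  intro d
  induction d using Nat.strong_induction_on with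
  | _ d ih =>
  intro W hd hinv l hl v hv
  have hzero : ∀ l : List A, app N l (0 : V) = 0 := by
    intro l
    induction l with
    | nil => rfl
    | cons a l ih => rw [app_cons, ih, map_zero]
  by_cases hW : W = ⊥
  · rw [hW, Submodule.mem_bot] at hv
    rw [hv, hzero]
  · obtain ⟨W₁, hlt, hinv1, hpush⟩ := exists_smaller N hcomm k hnil W hW hinv
    have hfr := Submodule.finrank_lt_finrank_of_lt hlt
    rcases List.eq_nil_or_concat l with h | ⟨l', a, h⟩
    · exfalso
      rw [h, List.length_nil] at hl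
      omega
    · rw [List.concat_eq_append] at h
      rw [h, List.length_append, List.length_singleton] at hl
      rw [h, app_append, app_cons, app_nil]
      exact ih (finrank ℚ W₁) (by omega) W₁ rfl hinv1 l' (by omega) _ (hpush a v hv)

lemma exists_fixed [FiniteDimensional ℚ V] (hcomm : ∀ a b v, N a (N b v) = N b (N a v)) (k : ℕ)
    (hnil : ∀ a v, ((N a)^[k]) v = 0) (W : Submodule ℚ V) (hW : W ≠ ⊥)
    (hinv : ∀ a, ∀ v ∈ W, N a v ∈ W) : ∃ v ∈ W, v ≠ 0 ∧ ∀ a, N a v = 0 := by
  suffices H : ∀ d : ℕ, ∀ W : Submodule ℚ V, finrank ℚ W = d → W ≠ ⊥ →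
      (∀ a, ∀ v ∈ W, N a v ∈ W) → ∃ v ∈ W, v ≠ 0 ∧ ∀ a, N a v = 0 from H _ W rfl hW hinv
  intro d
  induction d using Nat.strong_induction_on with
  | _ d ih =>
  intro W hd hW hinv
  obtain ⟨W₁, hlt, hinv1, hpush⟩ := exists_smaller N hcomm k hnil W hW hinv
  by_cases hbot : W₁ = ⊥
  · obtain ⟨v, hv, hv0⟩ := Submodule.exists_mem_ne_zero_of_ne_bot hW
    refine ⟨v, hv, hv0, fun a => ?_⟩
    have h1 := hpush a v hv
    rwa [hbot, Submodule.mem_bot] at h1
  · obtain ⟨v, hv, hv0, hfix⟩ := ih (finrank ℚ W₁)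
      (hd ▸ Submodule.finrank_lt_finrank_of_lt hlt) W₁ rfl hbot hinv1
    exact ⟨v, hlt.le hv, hv0, hfix⟩

end

/-- Rank drop along one step: all operators push `W` into `W₁`. -/
lemma mover_step_le {A V : Type} [AddCommGroup A] [Module.Free ℤ A] [Module.Finite ℤ A]
    [AddCommGroup V] [Module ℚ V] [FiniteDimensional ℚ V] (N : A → V →ₗ[ℚ] V)
    (hadd : ∀ a b v, N (a + b) v = N a (N b v) + N a v + N b v) (hzero : ∀ v, N 0 v = 0)
    (x : V) (W₁ W : Submodule ℚ V) (hle : W₁ ≤ W)
    (hinv1 : ∀ a, ∀ v ∈ W₁, N a v ∈ W₁) (hinv : ∀ a, ∀ v ∈ W, N a v ∈ W)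
    (hpush : ∀ a, ∀ v ∈ W, N a v ∈ W₁) :
    finrank ℤ (mover N hadd hzero x W hinv) + finrank ℚ W₁ ≤
      finrank ℤ (mover N hadd hzero x W₁ hinv1) + finrank ℚ W := by
  classical
  set M := mover N hadd hzero x W hinv with hM
  set M₁ := mover N hadd hzero x W₁ hinv1 with hM₁
  let ψ : M →ₗ[ℤ] (V ⧸ W₁) := AddMonoidHom.toIntLinearMap
    { toFun := fun a => W₁.mkQ (N a.1 x)
      map_zero' := by
        show W₁.mkQ (N 0 x) = 0
        rw [hzero, map_zero]
      map_add' := by
        intro a b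
        show W₁.mkQ (N (a.1 + b.1) x) = W₁.mkQ (N a.1 x) + W₁.mkQ (N b.1 x)
        rw [hadd, map_add, map_add]
        have h1 : W₁.mkQ (N a.1 (N b.1 x)) = 0 := by
          rw [Submodule.mkQ_apply, Submodule.Quotient.mk_eq_zero]
          exact hpush a.1 _ ((mem_mover N hadd hzero x W hinv b.1).1 b.2)
        rw [h1, zero_add] }
  have hψ : ∀ a, ψ a = W₁.mkQ (N a.1 x) := fun a => rfl
  have hker : finrank ℤ (LinearMap.ker ψ) ≤ finrank ℤ M₁ := by
    let g : LinearMap.ker ψ →ₗ[ℤ] M₁ :=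
      { toFun := fun a => ⟨a.1.1, by
          have h1 : ψ a.1 = 0 := a.2
          rw [hψ, Submodule.mkQ_apply, Submodule.Quotient.mk_eq_zero] at h1
          exact h1⟩
        map_add' := fun a b => rfl
        map_smul' := fun c a => rfl }
    refine LinearMap.finrank_le_finrank_of_injective (f := g) ?_
    intro a b hab
    have := congrArg Subtype.val hab
    exact Subtype.ext (Subtype.ext this)
  have hrange : finrank ℤ (LinearMap.range ψ) ≤ finrank ℚ (W.map W₁.mkQ) := by
    refine finrank_int_le _ _ ?_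
    rintro _ ⟨a, rfl⟩
    rw [hψ]
    exact ⟨_, (mem_mover N hadd hzero x W hinv a.1).1 a.2, rfl⟩
  have hsum : finrank ℤ M = finrank ℤ (LinearMap.ker ψ) + finrank ℤ (LinearMap.range ψ) := by
    have h1 := LinearMap.rank_range_add_rank_ker ψ
    rw [add_comm, finrank, finrank, finrank, ← h1, Cardinal.toNat_add]
    · exact Module.rank_lt_aleph0 ℤ _
    · exact Module.rank_lt_aleph0 ℤ _
  have hdim : finrank ℚ (W.map W₁.mkQ) + finrank ℚ W₁ = finrank ℚ W := by
    have h1 := LinearMap.finrank_range_add_finrank_ker (W₁.mkQ.comp W.subtype)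
    have h2 : LinearMap.range (W₁.mkQ.comp W.subtype) = W.map W₁.mkQ := by
      rw [LinearMap.range_comp, Submodule.range_subtype]
    have h3 : finrank ℚ (LinearMap.ker (W₁.mkQ.comp W.subtype)) = finrank ℚ W₁ := by
      rw [LinearMap.ker_comp, Submodule.ker_mkQ]
      exact (Submodule.comapSubtypeEquivOfLe hle).finrank_eq
    rw [h2, h3] at h1
    exact h1
  omega

/-- Relative version of `exists_smaller`. -/
lemma exists_between {A V : Type} [AddCommGroup V] [Module ℚ V] [FiniteDimensional ℚ V]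
    (N : A → V →ₗ[ℚ] V) (hcomm : ∀ a b v, N a (N b v) = N b (N a v)) (k : ℕ)
    (hnil : ∀ a v, ((N a)^[k]) v = 0) (W W' : Submodule ℚ V) (hlt : W < W')
    (hinv : ∀ a, ∀ v ∈ W, N a v ∈ W) (hinv' : ∀ a, ∀ v ∈ W', N a v ∈ W') :
    ∃ W₁ : Submodule ℚ V, W ≤ W₁ ∧ W₁ < W' ∧ (∀ a, ∀ v ∈ W₁, N a v ∈ W₁) ∧
      ∀ a, ∀ v ∈ W', N a v ∈ W₁ := by
  let f : A → (V ⧸ W) →ₗ[ℚ] (V ⧸ W) := fun a => W.mapQ W (N a) (fun v hv => hinv a v hv)
  have hf : ∀ a v, f a (W.mkQ v) = W.mkQ (N a v) := fun a v => rfl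
  have hsurj : ∀ q : V ⧸ W, ∃ v, W.mkQ v = q := Submodule.mkQ_surjective W
  have hfcomm : ∀ i j v, f i (f j v) = f j (f i v) := by
    intro i j q
    obtain ⟨v, rfl⟩ := hsurj q
    rw [hf, hf, hf, hf, hcomm]
  have hfit : ∀ i, ∀ m : ℕ, ∀ v, ((f i)^[m]) (W.mkQ v) = W.mkQ (((N i)^[m]) v) := by
    intro i m
    induction m with
    | zero => intro v; rfl
    | succ m ih => intro v; rw [Function.iterate_succ_apply, Function.iterate_succ_apply, hf, ih]
  have hfnil : ∀ i v, ((f i)^[k]) v = 0 := by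
    intro i q
    obtain ⟨v, rfl⟩ := hsurj q
    rw [hfit, hnil, map_zero]
  have hfW : W'.map W.mkQ ≠ ⊥ := by
    intro h
    obtain ⟨v, hv, hvW⟩ := SetLike.exists_of_lt hlt
    have h1 : W.mkQ v ∈ W'.map W.mkQ := ⟨v, hv, rfl⟩
    rw [h, Submodule.mem_bot, Submodule.mkQ_apply, Submodule.Quotient.mk_eq_zero] at h1
    exact hvW h1
  have hfinv : ∀ i, ∀ v ∈ W'.map W.mkQ, f i v ∈ W'.map W.mkQ := by
    rintro i _ ⟨v, hv, rfl⟩
    exact ⟨N i v, hinv' i v hv, rfl⟩
  obtain ⟨U, hU, hUinv, hUpush⟩ := exists_smaller f hfcomm k hfnil (W'.map W.mkQ) hfW hfinv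
  refine ⟨U.comap W.mkQ, ?_, ?_, ?_, ?_⟩
  · intro v hv
    rw [Submodule.mem_comap, Submodule.mkQ_apply, (Submodule.Quotient.mk_eq_zero W).2 hv]
    exact Submodule.zero_mem _
  · refine lt_of_le_of_ne ?_ ?_
    · intro v hv
      obtain ⟨w, hw, hwv⟩ := hU.le (Submodule.mem_comap.1 hv)
      have h1 : v - w ∈ W := by
        rw [← Submodule.Quotient.mk_eq_zero, Submodule.Quotient.mk_sub]
        rw [Submodule.mkQ_apply, Submodule.mkQ_apply] at hwv
        rw [hwv, sub_self]
      have h2 := Submodule.add_mem _ (hlt.le h1) hw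
      rwa [sub_add_cancel] at h2
    · intro h
      refine hU.ne ?_
      rw [← h, Submodule.map_comap_eq_of_surjective (Submodule.mkQ_surjective W)]
  · intro a v hv
    exact hUinv a _ hv
  · intro a v hv
    exact hUpush a _ ⟨v, hv, rfl⟩

/-- Rank drop along a pair of invariant subspaces. -/
lemma mover_add_le {A V : Type} [AddCommGroup A] [Module.Free ℤ A] [Module.Finite ℤ A]
    [AddCommGroup V] [Module ℚ V] [FiniteDimensional ℚ V] (N : A → V →ₗ[ℚ] V)
    (hadd : ∀ a b v, N (a + b) v = N a (N b v) + N a v + N b v) (hzero : ∀ v, N 0 v = 0)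
    (hcomm : ∀ a b v, N a (N b v) = N b (N a v)) (k : ℕ) (hnil : ∀ a v, ((N a)^[k]) v = 0)
    (x : V) (W W' : Submodule ℚ V) (hle : W ≤ W')
    (hinv : ∀ a, ∀ v ∈ W, N a v ∈ W) (hinv' : ∀ a, ∀ v ∈ W', N a v ∈ W') :
    finrank ℤ (mover N hadd hzero x W' hinv') + finrank ℚ W ≤
      finrank ℤ (mover N hadd hzero x W hinv) + finrank ℚ W' := by
  suffices H : ∀ d : ℕ, ∀ W' : Submodule ℚ V, finrank ℚ W' = d → W ≤ W' →
      ∀ hinv' : (∀ a, ∀ v ∈ W', N a v ∈ W'),
      finrank ℤ (mover N hadd hzero x W' hinv') + finrank ℚ W ≤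
        finrank ℤ (mover N hadd hzero x W hinv) + finrank ℚ W' from H _ W' rfl hle hinv'
  intro d
  induction d using Nat.strong_induction_on with
  | _ d ih =>
  intro W' hd hle hinv'
  by_cases heq : W = W'
  · subst heq
    exact le_rfl
  · obtain ⟨W₁, hW1, hW1', hinv1, hpush⟩ := exists_between N hcomm k hnil W W'
      (lt_of_le_of_ne hle heq) hinv hinv'
    have h1 := ih (finrank ℚ W₁) (hd ▸ Submodule.finrank_lt_finrank_of_lt hW1') W₁ rfl hW1 hinv1
    have h2 := mover_step_le N hadd hzero x W₁ W' hW1'.le hinv1 hinv' hpush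
    omega

end Pool.Agent.H31Cone
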