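import Pool.Agent.H93Cone.Weights5

/-!
Common definitions for `H31Cone` (cone conjecture, anticanonical class nef, group of rank
`n - 2`).
-/

set_option autoImplicit false

namespace Pool.Agent.H31Cone

open Module Pool.Agent.H93Cone

/-- Iterated application `N a₁ (N a₂ (... (N aₖ v)))` for `l = [a₁, ..., aₖ]`. -/
def app {A V : Type} [AddCommGroup V] [Module ℚ V] (N : A → V →ₗ[ℚ] V) (l : List A) (v : V) : V :=
  l.foldr (fun a w => N a w) v

/-- The vectors `x`, `e` and `N_i x = φ(single i 1) x - x`. -/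
def frame {r n : ℕ} (φ : (Fin r → ℤ) → Matrix (Fin n) (Fin n) ℤ) (x e : Fin n → ℚ) :
    Option (Option (Fin r)) → (Fin n → ℚ)
  | none => x
  | some none => e
  | some (some i) => Nq φ (Pi.single i 1) x

/-- There is a compact set `C` of points of `K`, each of which can be pushed into the interior of
`K` in the direction `e`, such that every interior point of `K` is moved by an element of `Γ` to
a positive multiple of a point of `C` plus a nonnegative multiple of `e`. -/
def Covered {n : ℕ} (Γ : Set (Matrix (Fin n) (Fin n) ℤ)) (K : PointedCone ℝ (Fin n → ℝ))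
    (e : Fin n → ℝ) : Prop :=
  ∃ C : Set (Fin n → ℝ), IsCompact C ∧ C ⊆ (K : Set (Fin n → ℝ)) ∧
    (∀ y ∈ C, ∃ t : ℝ, 0 ≤ t ∧ y + t • e ∈ interior (K : Set (Fin n → ℝ))) ∧
    ∀ y ∈ interior (K : Set (Fin n → ℝ)), ∃ g ∈ Γ, ∃ c : ℝ, 0 < c ∧ ∃ t : ℝ, 0 ≤ t ∧
      ∃ w ∈ C, act g y = c • w + t • e

end Pool.Agent.H31Cone
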