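import Pool.Agent.H31Cone.Defs
import Pool.Agent.H93Cone.Weights6

/-!
The diagonalisable case: real eigenfunctionals and the lattice of logarithms.

PROOF. Follow Weights6 (`sum_Lam`, `span_eq_sumzero`, `exists_dominating`, `char_real`,
`exists_real_eigv`, `weights_main`). `Lam h z triv = 0` for the trivial character. The span of
`range (Lam h)` has dimension `r = n - 2` and lies in `H = {v | v triv = 0, ∑ v = 0}` of dimension
`n - 2`, so it equals `H`. Uniform approximation: a spanning family `b j = Lam h (single j 1)`;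
for `v = ∑ c_j b_j` take `z j = ⌊c_j⌋`, then `|Lam h z χ - v χ| ≤ ∑ ‖b j‖` (proof of
`lam_mem_span`). Domination: for a nontrivial `χ₀` there is `z` with `Lam h z χ₀ > 0` and
`Lam h z χ < 0` for the other nontrivial `χ` (there are `n - 2 ≥ 1` of them). Hence every
character is real (the conjugate character has the same logarithms, and is trivial iff `χ` is).
Eigenfunctionals `ξ χ` real and independent (as in `weights_main`). Enumerate `Chars φ` by
`Fin n`, `i₀` is the trivial one. `ξ i ⬝ᵥ ratVec e = 0` for `i ≠ i₀` since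
`ξ i ⬝ᵥ e = ξ i ⬝ᵥ act (φ z) e = χ z * (ξ i ⬝ᵥ e)` with some `χ z ≠ 1`. As `ξ` is a basis of the
dual and `e ≠ 0`, `ξ i₀ ⬝ᵥ e ≠ 0`; rescale to 1. For the last part apply the uniform
approximation to `v / 2` and use `2 • z`: `τ i = (χ_i (2 • z)).re = ‖χ_i z‖ ^ 2 > 0`,
`log (τ i) = 2 Lam h z χ_i`.
-/

set_option autoImplicit false

namespace Pool.Agent.H31Cone

open Module Pool.Agent.H93Cone

section

variable {r n : ℕ} {φ : (Fin r → ℤ) → Matrix (Fin n) (Fin n) ℤ}

private lemma dc_act_ratVec {n : ℕ} (g : Matrix (Fin n) (Fin n) ℤ) (e : Fin n → ℚ) :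
    act g (ratVec e) = ratVec (qa g e) := by
  funext i
  show ((g.map (Int.cast : ℤ → ℝ)).mulVec (ratVec e)) i
    = (((g.map (Int.cast : ℤ → ℚ)).mulVec e i : ℚ) : ℝ)
  simp [Matrix.mulVec, dotProduct, ratVec]

/-- uniform approximation. -/
private lemma dc_approx (h : IsRep φ) [Fintype (Chars φ)] :
    ∃ M : ℝ, 0 ≤ M ∧ ∀ v ∈ Submodule.span ℝ (Set.range (Lam h)),
      ∃ z : Fin r → ℤ, ∀ χ, |Lam h z χ - v χ| ≤ M := by
  classical
  set b : Fin r → (Chars φ → ℝ) := fun j => Lam h (Pi.single j 1) with hb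
  have hLam : ∀ z, Lam h z = ∑ j, (z j : ℝ) • b j := by
    intro z
    have hz : z = ∑ j, z j • (Pi.single j (1 : ℤ) : Fin r → ℤ) := by
      funext i
      simp [Finset.sum_apply, Pi.single_apply]
    conv_lhs => rw [hz]
    rw [map_sum]
    refine Finset.sum_congr rfl fun j _ => ?_
    rw [map_smul, hb]
    exact (Int.cast_smul_eq_zsmul ℝ (z j) _).symm
  have hspan : Submodule.span ℝ (Set.range (Lam h)) ≤ Submodule.span ℝ (Set.range b) := by
    rw [Submodule.span_le]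
    rintro _ ⟨z, rfl⟩
    rw [hLam z]
    exact Submodule.sum_mem _ fun j _ => Submodule.smul_mem _ _
      (Submodule.subset_span ⟨j, rfl⟩)
  refine ⟨∑ j, ‖b j‖, Finset.sum_nonneg fun j _ => norm_nonneg _, fun v hv => ?_⟩
  obtain ⟨c, hc⟩ := (Submodule.mem_span_range_iff_exists_fun ℝ).1 (hspan hv)
  refine ⟨fun j => ⌊c j⌋, fun χ => ?_⟩
  rw [hLam, ← hc]
  simp only [Finset.sum_apply, Pi.smul_apply, smul_eq_mul]
  rw [← Finset.sum_sub_distrib]
  refine (Finset.abs_sum_le_sum_abs _ _).trans (Finset.sum_le_sum fun j _ => ?_)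
  have e : (⌊c j⌋ : ℝ) * b j χ - c j * b j χ = -(Int.fract (c j)) * b j χ := by
    rw [← Int.self_sub_floor]; ring
  rw [e, abs_mul, abs_neg, abs_of_nonneg (Int.fract_nonneg _)]
  calc Int.fract (c j) * |b j χ| ≤ 1 * ‖b j‖ := by
        refine mul_le_mul (Int.fract_lt_one _).le ?_ (abs_nonneg _) zero_le_one
        exact norm_le_pi_norm (b j) χ
    _ = ‖b j‖ := one_mul _

/-- the span of the logarithms in the presence of the trivial character. -/
private lemma dc_span (h : IsRep φ) [Fintype (Chars φ)] (hr : r + 2 = n)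
    (t0 : Chars φ) (ht0 : ∀ z, t0.1 z = 1) (hcard : Fintype.card (Chars φ) = n)
    (hfin : finrank ℝ (Submodule.span ℝ (Set.range (Lam h))) = r) (v : Chars φ → ℝ)
    (hv0 : v t0 = 0) (hv : ∑ χ, v χ = 0) :
    v ∈ Submodule.span ℝ (Set.range (Lam h)) := by
  classical
  let s : (Chars φ → ℝ) →ₗ[ℝ] (ℝ × ℝ) :=
    { toFun := fun v => (v t0, ∑ χ, v χ)
      map_add' := fun a b => by
        refine Prod.ext ?_ ?_
        · rfl
        · simp [Finset.sum_add_distrib]
      map_smul' := fun c a => by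
        refine Prod.ext ?_ ?_
        · rfl
        · simp [Finset.mul_sum] }
  have hs : ∀ v, s v = (v t0, ∑ χ, v χ) := fun _ => rfl
  have hle : Submodule.span ℝ (Set.range (Lam h)) ≤ LinearMap.ker s := by
    rw [Submodule.span_le]
    rintro _ ⟨z, rfl⟩
    show s (Lam h z) = 0
    rw [hs, sum_Lam h hcard z, Lam_apply, ht0]
    simp
  have hsurj : Function.Surjective s := by
    rintro ⟨a, b⟩
    have hn1 : 1 < Fintype.card (Chars φ) := by rw [hcard]; omega
    obtain ⟨χ1, hχ1⟩ := Fintype.exists_ne_of_one_lt_card hn1 t0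
    refine ⟨Pi.single t0 a + Pi.single χ1 (b - a), ?_⟩
    rw [hs]
    refine Prod.ext ?_ ?_
    · show (Pi.single t0 a + Pi.single χ1 (b - a) : Chars φ → ℝ) t0 = a
      rw [Pi.add_apply, Pi.single_eq_same, Pi.single_eq_of_ne (Ne.symm hχ1), add_zero]
    · show ∑ χ, (Pi.single t0 a + Pi.single χ1 (b - a) : Chars φ → ℝ) χ = b
      simp [Finset.sum_add_distrib]
  have h1 := LinearMap.finrank_range_add_finrank_ker s
  rw [LinearMap.range_eq_top.2 hsurj, finrank_top, finrank_prod, finrank_self,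
    finrank_fintype_fun_eq_card, hcard] at h1
  have h2 : Submodule.span ℝ (Set.range (Lam h)) = LinearMap.ker s := by
    apply Submodule.eq_of_le_of_finrank_eq hle
    omega
  rw [h2]
  show s v = 0
  rw [hs, hv0, hv]
  rfl

/-- domination of the nontrivial characters. -/
private lemma dc_dom (h : IsRep φ) [Fintype (Chars φ)] (hr : r + 2 = n) (hr1 : 1 ≤ r)
    (t0 : Chars φ) (ht0 : ∀ z, t0.1 z = 1) (hcard : Fintype.card (Chars φ) = n)
    (hfin : finrank ℝ (Submodule.span ℝ (Set.range (Lam h))) = r) (χ₀ : Chars φ)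
    (hχ₀ : χ₀ ≠ t0) :
    ∃ z, 0 < Lam h z χ₀ ∧ ∀ χ, χ ≠ χ₀ → χ ≠ t0 → Lam h z χ < 0 := by
  classical
  obtain ⟨M, hM, happ⟩ := dc_approx h
  set v : Chars φ → ℝ := fun χ => (M + 1) *
    (((if χ = χ₀ then ((n : ℝ) - 1) else 0) - 1) + (if χ = t0 then (1 : ℝ) else 0)) with hv
  have hsum : ∑ χ, v χ = 0 := by
    rw [hv, ← Finset.mul_sum, Finset.sum_add_distrib, Finset.sum_sub_distrib]
    simp [hcard]
  have hv0 : v t0 = 0 := by
    simp [hv, Ne.symm hχ₀]
  obtain ⟨z, hz⟩ := happ v (dc_span h hr t0 ht0 hcard hfin v hv0 hsum)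
  refine ⟨z, ?_, fun χ hχ hχ' => ?_⟩
  · have h1 := (abs_le.1 (hz χ₀)).1
    have h2 : v χ₀ = (M + 1) * ((n : ℝ) - 2) := by
      simp only [hv, if_true, if_neg hχ₀]
      ring
    rw [h2] at h1
    have h3 : (3 : ℝ) ≤ n := by
      have : 3 ≤ n := by omega
      exact_mod_cast this
    nlinarith
  · have h1 := (abs_le.1 (hz χ)).2
    have h2 : v χ = -(M + 1) := by
      simp only [hv, if_neg hχ, if_neg hχ']
      ring
    rw [h2] at h1
    linarith

private lemma dc_real (h : IsRep φ) [Fintype (Chars φ)]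
    (t0 : Chars φ) (ht0 : ∀ z, t0.1 z = 1)
    (hdom : ∀ χ₀ : Chars φ, χ₀ ≠ t0 →
      ∃ z, 0 < Lam h z χ₀ ∧ ∀ χ, χ ≠ χ₀ → χ ≠ t0 → Lam h z χ < 0)
    (χ : Chars φ) (z : Fin r → ℤ) : ((χ.1 z).re : ℂ) = χ.1 z := by
  by_cases hχ : χ = t0
  · rw [hχ, ht0]
    simp
  have hmem : (fun z => (starRingEnd ℂ) (χ.1 z)) ∈ Chars φ := by
    refine ⟨fun j => (starRingEnd ℂ) (eigv χ j), ?_, ?_⟩
    · intro h0
      apply eigv_ne χ
      funext j
      have := congrFun h0 j
      simpa using this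
    · intro z
      rw [map_conj_eq, lc_eigv]
      funext j
      simp
  set χ' : Chars φ := ⟨_, hmem⟩ with hχ'
  have heq : χ' = χ := by
    by_contra hne
    obtain ⟨w, h1, h2⟩ := hdom χ hχ
    have hne' : χ' ≠ t0 := by
      intro h0
      apply hχ
      apply Subtype.ext
      funext z
      rw [ht0]
      have h3 : (starRingEnd ℂ) (χ.1 z) = 1 := by
        have := ht0 z
        rw [← h0] at this
        exact this
      have h4 := congrArg (starRingEnd ℂ) h3
      rwa [Complex.conj_conj, map_one] at h4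
    have h3 := h2 χ' hne hne'
    rw [Lam_apply] at h1 h3
    have h4 : ‖χ'.1 w‖ = ‖χ.1 w‖ := by
      show ‖(starRingEnd ℂ) (χ.1 w)‖ = _
      exact RCLike.norm_conj _
    rw [h4] at h3
    linarith
  have h5 : (starRingEnd ℂ) (χ.1 z) = χ.1 z := congrFun (congrArg Subtype.val heq) z
  exact Complex.conj_eq_iff_re.1 h5

end

theorem diag_chars {r n : ℕ} {φ : (Fin r → ℤ) → Matrix (Fin n) (Fin n) ℤ} (hr : r + 2 = n)
    (hr1 : 1 ≤ r) (h : IsRep φ) [Fintype (Chars φ)]
    (htriv : (fun _ => (1 : ℂ)) ∈ Chars φ) (hcard : Fintype.card (Chars φ) = n)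
    (hfin : finrank ℝ (Submodule.span ℝ (Set.range (Lam h))) = r)
    (e : Fin n → ℚ) (he0 : e ≠ 0) (he : ∀ z, qa (φ z) e = e) :
    ∃ (ξ : Fin n → (Fin n → ℝ)) (i₀ : Fin n) (M : ℝ), LinearIndependent ℝ ξ ∧
      (∀ i, i ≠ i₀ → ξ i ⬝ᵥ ratVec e = 0) ∧ ξ i₀ ⬝ᵥ ratVec e = 1 ∧
      ∀ v : Fin n → ℝ, v i₀ = 0 → ∑ i, v i = 0 →
        ∃ (z : Fin r → ℤ) (τ : Fin n → ℝ), τ i₀ = 1 ∧ (∀ i, 0 < τ i) ∧
          (∀ i, |Real.log (τ i) - v i| ≤ M) ∧
          ∀ i y, ξ i ⬝ᵥ act (φ z) y = τ i * (ξ i ⬝ᵥ y) := by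
  classical
  set t0 : Chars φ := ⟨fun _ => (1 : ℂ), htriv⟩ with ht0def
  have ht0 : ∀ z, t0.1 z = 1 := fun z => rfl
  have hdom := dc_dom h hr hr1 t0 ht0 hcard hfin
  have hre := dc_real h t0 ht0 hdom
  choose ξ hξ0 hξ using exists_real_eigv h hre
  have hind : LinearIndependent ℝ ξ := by
    refine indep_of_chars (fun w => lr (φ w)) ?_ (fun (χ : Chars φ) z => (χ.1 z).re) ?_ ξ hξ0 hξ
    · intro i j v
      show lr (φ i) (lr (φ j) v) = lr (φ j) (lr (φ i) v)
      rw [← lr_mul, ← lr_mul, h.comm]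
    · intro χ χ' hχ
      apply Subtype.ext
      funext z
      rw [← hre χ z, ← hre χ' z]
      exact congrArg _ (congrFun hχ z)
  have hee : ∀ z, act (φ z) (ratVec e) = ratVec e := fun z => by
    rw [dc_act_ratVec, he]
  have hzero : ∀ χ : Chars φ, χ ≠ t0 → ξ χ ⬝ᵥ ratVec e = 0 := by
    intro χ hχ
    have h1 : ∃ z, χ.1 z ≠ 1 := by
      by_contra hcon
      push Not at hcon
      apply hχ
      apply Subtype.ext
      funext z
      rw [hcon z, ht0]
    obtain ⟨z, hz⟩ := h1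
    have h2 : ξ χ ⬝ᵥ ratVec e = (χ.1 z).re * (ξ χ ⬝ᵥ ratVec e) := by
      conv_lhs => rw [← hee z]
      rw [dot_act, hξ, smul_dotProduct, smul_eq_mul]
    have h3 : (χ.1 z).re ≠ 1 := by
      intro h4
      apply hz
      rw [← hre χ z, h4, Complex.ofReal_one]
    have h4 : (1 - (χ.1 z).re) * (ξ χ ⬝ᵥ ratVec e) = 0 := by linarith
    rcases mul_eq_zero.1 h4 with h5 | h5
    · exact absurd (by linarith : (χ.1 z).re = 1) h3
    · exact h5
  let ε : Fin n ≃ Chars φ := Fintype.equivOfCardEq (by rw [hcard, Fintype.card_fin])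
  have hne : ξ t0 ⬝ᵥ ratVec e ≠ 0 := by
    intro h0
    let P : Matrix (Fin n) (Fin n) ℝ := fun i => ξ (ε i)
    have hP : LinearIndependent ℝ (fun i => P i) := hind.comp ε ε.injective
    have hunit : IsUnit P := (Matrix.linearIndependent_rows_iff_isUnit).1 hP
    have h1 : P.mulVec (ratVec e) = P.mulVec 0 := by
      rw [Matrix.mulVec_zero]
      funext i
      show ξ (ε i) ⬝ᵥ ratVec e = 0
      by_cases hi : ε i = t0
      · rw [hi, h0]
      · exact hzero _ hi
    have h2 := Matrix.mulVec_injective_of_isUnit hunit h1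
    apply he0
    funext i
    have h3 := congrFun h2 i
    simpa [ratVec] using h3
  obtain ⟨M, hM, happ⟩ := dc_approx h
  let w : Chars φ → ℝˣ := fun χ => if χ = t0 then (Units.mk0 _ hne)⁻¹ else 1
  have hw0 : (w t0 : ℝ) = (ξ t0 ⬝ᵥ ratVec e)⁻¹ := by
    simp [w]
  have hind' : LinearIndependent ℝ (w • ξ) := hind.units_smul w
  have hwξ : ∀ χ, (w • ξ) χ = (w χ : ℝ) • ξ χ := fun χ => rfl
  refine ⟨fun i => (w • ξ) (ε i), ε.symm t0, 2 * M, hind'.comp ε ε.injective, ?_, ?_, ?_⟩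
  · intro i hi
    have h1 : ε i ≠ t0 := fun h2 => hi (by rw [← h2, Equiv.symm_apply_apply])
    show (w • ξ) (ε i) ⬝ᵥ ratVec e = 0
    rw [hwξ, smul_dotProduct, hzero _ h1, smul_zero]
  · show (w • ξ) (ε (ε.symm t0)) ⬝ᵥ ratVec e = 1
    rw [Equiv.apply_symm_apply, hwξ, smul_dotProduct, hw0, smul_eq_mul, inv_mul_cancel₀ hne]
  · intro v hv0 hv
    have hv0' : (fun χ => v (ε.symm χ) / 2) t0 = 0 := by
      show v (ε.symm t0) / 2 = 0
      rw [hv0, zero_div]
    have hv' : ∑ χ, (fun χ => v (ε.symm χ) / 2) χ = 0 := by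
      show ∑ χ, v (ε.symm χ) / 2 = 0
      rw [← Finset.sum_div, Equiv.sum_comp ε.symm v, hv, zero_div]
    obtain ⟨z, hz⟩ := happ _ (dc_span h hr t0 ht0 hcard hfin _ hv0' hv')
    have hnorm : ∀ χ : Chars φ, ‖χ.1 z‖ ^ 2 = ((χ.1 (2 • z)).re) := by
      intro χ
      rw [char_nsmul h]
      have h1 : ‖χ.1 z‖ = |(χ.1 z).re| := by
        conv_lhs => rw [← hre χ z]
        exact Complex.norm_real _
      rw [h1, sq_abs]
      have h2 : χ.1 z ^ 2 = (((χ.1 z).re ^ 2 : ℝ) : ℂ) := by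
        push_cast
        rw [hre χ z]
      rw [h2, Complex.ofReal_re]
    refine ⟨2 • z, fun j => ((ε j).1 (2 • z)).re, ?_, fun j => ?_, fun j => ?_, fun j y => ?_⟩
    · show ((ε (ε.symm t0)).1 (2 • z)).re = 1
      rw [Equiv.apply_symm_apply, ht0, Complex.one_re]
    · show 0 < ((ε j).1 (2 • z)).re
      rw [← hnorm]
      exact pow_pos (norm_pos_iff.2 (char_ne_zero h _ z)) 2
    · show |Real.log ((ε j).1 (2 • z)).re - v j| ≤ 2 * M
      have h1 := hz (ε j)
      simp only [Equiv.symm_apply_apply] at h1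
      rw [Lam_apply] at h1
      rw [← hnorm, Real.log_pow]
      rw [abs_le] at h1 ⊢
      constructor
      · push_cast
        linarith [h1.1]
      · push_cast
        linarith [h1.2]
    · show (w • ξ) (ε j) ⬝ᵥ act (φ (2 • z)) y
        = ((ε j).1 (2 • z)).re * ((w • ξ) (ε j) ⬝ᵥ y)
      rw [hwξ, smul_dotProduct, smul_dotProduct, dot_act, hξ, smul_dotProduct]
      simp only [smul_eq_mul]
      ring

end Pool.Agent.H31Cone
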