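import Pool.Agent.H31Cone.Defs
import Pool.Agent.H93Cone.Simplex

/-!
The diagonalisable case: cocompactness.

PROOF. `v_i = dualb ξ i` (Simplex: `dualb_expand`, `dot_dualb`), so `y = ∑ (ξ i ⬝ᵥ y) v_i` and
`v_{i₀} = e` (expand `e`). There are `m = n - 1 ≥ 2` indices `i ≠ i₀`.
(1) for `y ∈ K` and `i ≠ i₀`: `(ξ i ⬝ᵥ y) • v_i ∈ K`. Apply `hz` to `v` with `v i = k (m - 1)`,
`v j = -k` for `j ≠ i, i₀`, `v i₀ = 0`: `τ i ≥ exp (k (m - 1) - M)`, `τ j ≤ exp (-k + M)`, `τ i₀ = 1`;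
`(τ i)⁻¹ • act (φ z) y = ∑ (τ j / τ i) (ξ j ⬝ᵥ y) v_j → (ξ i ⬝ᵥ y) v_i` as `k → ∞`; `K` closed.
(2) signs: as in `exists_orthant` (Simplex) there is `s i ∈ {1, -1}` with `s i (ξ i ⬝ᵥ y) ≥ 0` for
all `y ∈ K` and `s i v_i ∈ K` (`i ≠ i₀`); replace `ξ i` by `s i ξ i`. Then `0 ≤ ξ i ⬝ᵥ y` on
`K`, `0 < ξ i ⬝ᵥ y` on the interior, `v_i ∈ K`, and the hypothesis `hz` is unchanged.
(3) every combination `∑ a_i v_i` with all `a_i > 0` (including `i₀`) is interior: the set of all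
these is open (preimage of the open orthant under the coordinates) and contained in `K`.
(4) `C = {y ∈ K | exp (-M) ≤ ξ i ⬝ᵥ y ≤ exp M for i ≠ i₀, ξ i₀ ⬝ᵥ y ≤ 0}` is compact: bounded below
in `ξ i₀` by `exists_pos_functional`: `0 ≤ f y = (ξ i₀ ⬝ᵥ y) f e + ∑_{i ≠ i₀} (ξ i ⬝ᵥ y) f v_i`.
For `y ∈ C`, `y + t e` is interior for large `t` by (3).
(5) `y` interior, `g = (∏_{i ≠ i₀} ξ i ⬝ᵥ y)^(1/m)` (or `log g` = mean of the logarithms),
`v i = log g - log (ξ i ⬝ᵥ y)`, `v i₀ = 0`: sum zero. With `z, τ`: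
`y₁ = g⁻¹ • act (φ z) y ∈ K` has `ξ i ⬝ᵥ y₁ = τ i (ξ i ⬝ᵥ y) / g ∈ [exp (-M), exp M]`. If
`ξ i₀ ⬝ᵥ y₁ ≤ 0` take `w = y₁`, `t = 0`; otherwise `w = y₁ - (ξ i₀ ⬝ᵥ y₁) e =
∑_{i ≠ i₀} (ξ i ⬝ᵥ y₁) v_i ∈ K`.
-/

set_option autoImplicit false

namespace Pool.Agent.H31Cone

open Module Pool.Agent.H93Cone Filter Topology

/-- Step (1): limits of normalised orbits. -/
private lemma diag_limit {r n : ℕ} {φ : (Fin r → ℤ) → Matrix (Fin n) (Fin n) ℤ} (hn : 3 ≤ n)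
    (K : PointedCone ℝ (Fin n → ℝ)) (hcl : IsClosed (K : Set (Fin n → ℝ)))
    (hφ : ∀ z, ∀ y ∈ K, act (φ z) y ∈ K)
    (ξ : Fin n → (Fin n → ℝ)) (i₀ : Fin n) (M : ℝ) (hξ : LinearIndependent ℝ ξ)
    (hz : ∀ v : Fin n → ℝ, v i₀ = 0 → ∑ i, v i = 0 →
        ∃ (z : Fin r → ℤ) (τ : Fin n → ℝ), τ i₀ = 1 ∧ (∀ i, 0 < τ i) ∧
          (∀ i, |Real.log (τ i) - v i| ≤ M) ∧
          ∀ i y, ξ i ⬝ᵥ act (φ z) y = τ i * (ξ i ⬝ᵥ y))
    (i : Fin n) (hi : i ≠ i₀) (y : Fin n → ℝ) (hy : y ∈ K) :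
    (ξ i ⬝ᵥ y) • dualb ξ i ∈ K := by
  classical
  have hn2 : (1 : ℝ) ≤ (n : ℝ) - 2 := by
    have : (3 : ℝ) ≤ n := by exact_mod_cast hn
    linarith
  -- the vectors `v`
  have hv : ∀ k : ℕ, ∃ (z : Fin r → ℤ) (τ : Fin n → ℝ), (∀ i, 0 < τ i) ∧
      (∀ j, j ≠ i → τ j / τ i ≤ Real.exp (2 * M - k)) ∧
      ∀ i y, ξ i ⬝ᵥ act (φ z) y = τ i * (ξ i ⬝ᵥ y) := by
    intro k
    set v : Fin n → ℝ := fun j => if j = i₀ then 0 else if j = i then (k : ℝ) * ((n : ℝ) - 2)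
      else -(k : ℝ) with hvdef
    have hv0 : v i₀ = 0 := by simp [hvdef]
    have hsum : ∑ j, v j = 0 := by
      have h1 : ∀ j, v j = -(k : ℝ) + ((if j = i₀ then (k : ℝ) else 0) +
          (if j = i then (k : ℝ) * ((n : ℝ) - 1) else 0)) := by
        intro j
        simp only [hvdef]
        by_cases h1 : j = i₀
        · have h2 : j ≠ i := fun e => hi (e.symm.trans h1)
          simp [h1, hi.symm]
        · by_cases h2 : j = i
          · simp [h2, hi]; ring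
          · simp [h1, h2]
      simp only [h1, Finset.sum_add_distrib, Finset.sum_ite_eq', Finset.mem_univ, if_true,
        Finset.sum_const, Finset.card_univ, Fintype.card_fin, nsmul_eq_mul]
      ring
    obtain ⟨z, τ, h0, hpos, hlog, heig⟩ := hz v hv0 hsum
    refine ⟨z, τ, hpos, ?_, heig⟩
    have hM : 0 ≤ M := le_trans (abs_nonneg _) (hlog i₀)
    have hvi : v i = (k : ℝ) * ((n : ℝ) - 2) := by simp [hvdef, hi]
    have hk : (0 : ℝ) ≤ k := Nat.cast_nonneg k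
    have hvi' : (k : ℝ) ≤ v i := by
      rw [hvi]; nlinarith
    intro j hj
    have hvj : v j ≤ 0 := by
      simp only [hvdef]
      by_cases h1 : j = i₀
      · simp [h1]
      · simp [h1, hj]
    have h1 := (abs_le.1 (hlog i)).1
    have h2 := (abs_le.1 (hlog j)).2
    have h3 : Real.log (τ j / τ i) ≤ 2 * M - k := by
      rw [Real.log_div (hpos j).ne' (hpos i).ne']
      linarith
    calc τ j / τ i = Real.exp (Real.log (τ j / τ i)) :=
          (Real.exp_log (div_pos (hpos j) (hpos i))).symm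
      _ ≤ _ := Real.exp_le_exp.2 h3
  choose z τ hpos hrat heig using hv
  have hmem : ∀ k : ℕ, (τ k i)⁻¹ • act (φ (z k)) y ∈ (K : Set (Fin n → ℝ)) := fun k =>
    PointedCone.smul_mem _ (inv_nonneg.2 (hpos k i).le) (hφ _ _ hy)
  have hexp : ∀ k : ℕ, (τ k i)⁻¹ • act (φ (z k)) y
      = ∑ j, ((τ k j / τ k i) * (ξ j ⬝ᵥ y)) • dualb ξ j := by
    intro k
    conv_lhs => rw [dualb_expand hξ (act (φ (z k)) y)]
    rw [Finset.smul_sum]
    refine Finset.sum_congr rfl fun j _ => ?_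
    rw [heig, smul_smul]
    congr 1
    ring
  have hlim : Tendsto (fun k : ℕ => (τ k i)⁻¹ • act (φ (z k)) y) atTop
      (𝓝 (∑ j, (if j = i then (ξ i ⬝ᵥ y) else 0) • dualb ξ j)) := by
    simp only [hexp]
    refine tendsto_finsetSum _ fun j _ => ?_
    by_cases hj : j = i
    · subst hj
      have : ∀ k : ℕ, ((τ k j / τ k j) * (ξ j ⬝ᵥ y)) • dualb ξ j = (ξ j ⬝ᵥ y) • dualb ξ j := by
        intro k; rw [div_self (hpos k j).ne', one_mul]
      simp only [this, if_true]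
      exact tendsto_const_nhds
    · simp only [hj, if_false, zero_smul]
      have h3 : Tendsto (fun k : ℕ => τ k j / τ k i) atTop (𝓝 0) := by
        refine squeeze_zero (fun k => (div_pos (hpos k j) (hpos k i)).le)
          (fun k => hrat k j hj) ?_
        refine Real.tendsto_exp_atBot.comp ?_
        have h5 : Tendsto (fun k : ℕ => (k : ℝ) - 2 * M) atTop atTop :=
          tendsto_atTop_add_const_right _ _ tendsto_natCast_atTop_atTop
        have h6 := tendsto_neg_atTop_atBot.comp h5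
        refine h6.congr fun k => ?_
        simp only [Function.comp]
        ring
      have h4 : Tendsto (fun k : ℕ => ((τ k j / τ k i) * (ξ j ⬝ᵥ y)) • dualb ξ j) atTop
          (𝓝 ((0 * (ξ j ⬝ᵥ y)) • dualb ξ j)) := (h3.mul_const _).smul_const _
      simpa using h4
  have hfin := hcl.mem_of_tendsto hlim (Filter.Eventually.of_forall hmem)
  have hsum : (∑ j, (if j = i then (ξ i ⬝ᵥ y) else 0) • dualb ξ j) = (ξ i ⬝ᵥ y) • dualb ξ i := by
    rw [Finset.sum_eq_single i]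
    · simp
    · intro j _ hj; simp [hj]
    · intro h; exact absurd (Finset.mem_univ i) h
  rw [hsum] at hfin
  exact hfin

/-- Steps (3)-(5), after the sign changes. -/
private lemma diag_core {r n : ℕ} {φ : (Fin r → ℤ) → Matrix (Fin n) (Fin n) ℤ} (hn : 3 ≤ n)
    (K : PointedCone ℝ (Fin n → ℝ)) (hcl : IsClosed (K : Set (Fin n → ℝ)))
    (hsal : ∀ x, x ∈ K → -x ∈ K → x = 0)
    (hφ : ∀ z, ∀ y ∈ K, act (φ z) y ∈ K) (e : Fin n → ℝ)
    (ξ w : Fin n → (Fin n → ℝ)) (i₀ : Fin n) (M : ℝ)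
    (hexp : ∀ y, y = ∑ j, (ξ j ⬝ᵥ y) • w j)
    (hdot : ∀ i j, ξ j ⬝ᵥ w i = if j = i then 1 else 0)
    (hw0 : w i₀ = e) (hwK : ∀ i, w i ∈ K)
    (hnn : ∀ i, i ≠ i₀ → ∀ y ∈ K, 0 ≤ ξ i ⬝ᵥ y)
    (hz : ∀ v : Fin n → ℝ, v i₀ = 0 → ∑ i, v i = 0 →
        ∃ (z : Fin r → ℤ) (τ : Fin n → ℝ), τ i₀ = 1 ∧ (∀ i, 0 < τ i) ∧
          (∀ i, |Real.log (τ i) - v i| ≤ M) ∧
          ∀ i y, ξ i ⬝ᵥ act (φ z) y = τ i * (ξ i ⬝ᵥ y)) :
    Covered (Set.range φ) K e := by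
  classical
  have hξe : ∀ i, i ≠ i₀ → ξ i ⬝ᵥ e = 0 := by
    intro i hi
    rw [← hw0, hdot, if_neg hi]
  have hξe1 : ξ i₀ ⬝ᵥ e = 1 := by
    rw [← hw0, hdot, if_pos rfl]
  -- points with nonnegative coordinates
  have hmem : ∀ y, (∀ i, 0 ≤ ξ i ⬝ᵥ y) → y ∈ K := by
    intro y hy
    rw [hexp y]
    exact Submodule.sum_mem _ fun j _ => PointedCone.smul_mem _ (hy j) (hwK j)
  have hintr : ∀ y, (∀ i, 0 < ξ i ⬝ᵥ y) → y ∈ interior (K : Set (Fin n → ℝ)) := by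
    intro y hy
    rw [mem_interior]
    refine ⟨⋂ i, {y | 0 < ξ i ⬝ᵥ y}, ?_, ?_, ?_⟩
    · intro x hx
      rw [Set.mem_iInter] at hx
      exact hmem x fun i => (hx i).le
    · exact isOpen_iInter_of_finite fun i => isOpen_lt continuous_const (continuous_dot _)
    · exact Set.mem_iInter.2 hy
  have hpos : ∀ y ∈ interior (K : Set (Fin n → ℝ)), ∀ i, i ≠ i₀ → 0 < ξ i ⬝ᵥ y := by
    intro x hx i hi
    by_contra hcon
    have h0 : ξ i ⬝ᵥ x = 0 := le_antisymm (not_lt.1 hcon) (hnn i hi x (interior_subset hx))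
    have h1 : Tendsto (fun t : ℝ => x - t • w i) (𝓝[>] 0) (𝓝 (x - (0 : ℝ) • w i)) := by
      refine Tendsto.mono_left ?_ nhdsWithin_le_nhds
      exact (continuous_const.sub (continuous_id.smul continuous_const)).tendsto 0
    rw [zero_smul, sub_zero] at h1
    have h2 := h1.eventually (isOpen_interior.mem_nhds hx)
    obtain ⟨t, ht, htpos⟩ := (h2.and self_mem_nhdsWithin).exists
    have h3 := hnn i hi _ (interior_subset ht)
    rw [dotProduct_sub, h0, zero_sub, dotProduct_smul, hdot] at h3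
    simp only [if_true, smul_eq_mul, mul_one] at h3
    have : (0 : ℝ) < t := htpos
    linarith
  obtain ⟨f, c, hc, hf⟩ := exists_pos_functional K hcl hsal
  have hf0 : ∀ y ∈ K, 0 ≤ f y := fun y hy =>
    le_trans (mul_nonneg hc.le (norm_nonneg _)) (hf y hy)
  set C : Set (Fin n → ℝ) := {y | y ∈ K ∧ (∀ i, i ≠ i₀ → Real.exp (-M) ≤ ξ i ⬝ᵥ y ∧
    ξ i ⬝ᵥ y ≤ Real.exp M) ∧ ξ i₀ ⬝ᵥ y ≤ 0} with hC
  refine ⟨C, ?_, fun y hy => hy.1, ?_, ?_⟩
  · -- compactness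
    have hclC : IsClosed C := by
      have h1 : C = (K : Set (Fin n → ℝ)) ∩ ((⋂ i, {y | i ≠ i₀ → Real.exp (-M) ≤ ξ i ⬝ᵥ y ∧
          ξ i ⬝ᵥ y ≤ Real.exp M}) ∩ {y | ξ i₀ ⬝ᵥ y ≤ 0}) := by
        ext y
        simp only [hC, Set.mem_ofPred_eq, Set.mem_inter_iff, Set.mem_iInter, SetLike.mem_coe]
      rw [h1]
      refine hcl.inter (IsClosed.inter (isClosed_iInter fun i => ?_)
        (isClosed_le (continuous_dot _) continuous_const))
      by_cases hi : i = i₀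
      · simp [hi]
      · simp only [ne_eq, hi, not_false_eq_true, true_imp_iff]
        exact (isClosed_le continuous_const (continuous_dot _)).inter
          (isClosed_le (continuous_dot _) continuous_const)
    have hbd : Bornology.IsBounded C := by
      rw [isBounded_iff_forall_norm_le]
      refine ⟨(∑ j, Real.exp M * f (w j)) / c, fun y hy => ?_⟩
      rw [le_div_iff₀ hc, mul_comm]
      refine le_trans (hf y hy.1) ?_
      conv_lhs => rw [hexp y]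
      rw [map_sum]
      refine Finset.sum_le_sum fun j _ => ?_
      rw [map_smul, smul_eq_mul]
      refine mul_le_mul_of_nonneg_right ?_ (hf0 _ (hwK j))
      by_cases hj : j = i₀
      · subst hj
        exact le_trans hy.2.2 (Real.exp_pos _).le
      · exact (hy.2.1 j hj).2
    exact Metric.isCompact_of_isClosed_isBounded hclC hbd
  · intro y hy
    refine ⟨1 - ξ i₀ ⬝ᵥ y, by linarith [hy.2.2], hintr _ fun i => ?_⟩
    rw [dotProduct_add, dotProduct_smul, smul_eq_mul]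
    by_cases hi : i = i₀
    · subst hi
      rw [hξe1]; linarith
    · rw [hξe i hi, mul_zero, add_zero]
      exact lt_of_lt_of_le (Real.exp_pos _) (hy.2.1 i hi).1
  · intro y hy
    have hyK : y ∈ K := interior_subset hy
    have hyp := hpos y hy
    have hn1 : (0 : ℝ) < (n : ℝ) - 1 := by
      have : (3 : ℝ) ≤ n := by exact_mod_cast hn
      linarith
    set L : ℝ := (∑ i ∈ Finset.univ.erase i₀, Real.log (ξ i ⬝ᵥ y)) / ((n : ℝ) - 1) with hL
    set v : Fin n → ℝ := fun i => if i = i₀ then 0 else L - Real.log (ξ i ⬝ᵥ y) with hv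
    have hv0 : v i₀ = 0 := by simp [hv]
    have hsum : ∑ i, v i = 0 := by
      rw [← Finset.add_sum_erase _ _ (Finset.mem_univ i₀), hv0, zero_add]
      have h1 : ∑ i ∈ Finset.univ.erase i₀, v i
          = ∑ i ∈ Finset.univ.erase i₀, (L - Real.log (ξ i ⬝ᵥ y)) := by
        refine Finset.sum_congr rfl fun i hi => ?_
        rw [hv]
        simp [Finset.ne_of_mem_erase hi]
      rw [h1, Finset.sum_sub_distrib, Finset.sum_const, Finset.card_erase_of_mem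
        (Finset.mem_univ _), Finset.card_univ, Fintype.card_fin, nsmul_eq_mul]
      have h2 : ((n - 1 : ℕ) : ℝ) = (n : ℝ) - 1 := by
        rw [Nat.cast_sub (by omega)]; simp
      rw [h2, hL]
      field_simp
      ring
    obtain ⟨z, τ, hτ0, hτpos, hlog, heig⟩ := hz v hv0 hsum
    obtain ⟨y₁, hy₁⟩ : ∃ y₁ : Fin n → ℝ, y₁ = (Real.exp L)⁻¹ • act (φ z) y := ⟨_, rfl⟩
    have hy₁K : y₁ ∈ K := hy₁ ▸ PointedCone.smul_mem _ (inv_nonneg.2 (Real.exp_pos _).le) (hφ _ _ hyK)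
    have hy₁c : ∀ i, ξ i ⬝ᵥ y₁ = (Real.exp L)⁻¹ * (τ i * (ξ i ⬝ᵥ y)) := by
      intro i
      rw [hy₁, dotProduct_smul, smul_eq_mul, heig]
    have hbd : ∀ i, i ≠ i₀ → Real.exp (-M) ≤ ξ i ⬝ᵥ y₁ ∧ ξ i ⬝ᵥ y₁ ≤ Real.exp M := by
      intro i hi
      have h1 : ξ i ⬝ᵥ y₁ = Real.exp (Real.log (τ i) - v i) := by
        have h2 : v i = L - Real.log (ξ i ⬝ᵥ y) := by simp [hv, hi]
        rw [hy₁c, h2, sub_sub_eq_add_sub, Real.exp_sub, Real.exp_add, Real.exp_log (hτpos i),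
          Real.exp_log (hyp i hi)]
        field_simp
      have h3 := abs_le.1 (hlog i)
      rw [h1]
      exact ⟨Real.exp_le_exp.2 h3.1, Real.exp_le_exp.2 h3.2⟩
    have hact : act (φ z) y = Real.exp L • y₁ := by
      rw [hy₁, smul_smul, mul_inv_cancel₀ (Real.exp_pos _).ne', one_smul]
    refine ⟨φ z, ⟨z, rfl⟩, Real.exp L, Real.exp_pos _, ?_⟩
    by_cases hle : ξ i₀ ⬝ᵥ y₁ ≤ 0
    · exact ⟨0, le_rfl, y₁, ⟨hy₁K, hbd, hle⟩, by rw [hact, zero_smul, add_zero]⟩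
    · push Not at hle
      have hc1 : ∀ i, i ≠ i₀ → ξ i ⬝ᵥ (y₁ - (ξ i₀ ⬝ᵥ y₁) • e) = ξ i ⬝ᵥ y₁ := by
        intro i hi
        rw [dotProduct_sub, dotProduct_smul, hξe i hi, smul_zero, sub_zero]
      have hc2 : ξ i₀ ⬝ᵥ (y₁ - (ξ i₀ ⬝ᵥ y₁) • e) = 0 := by
        rw [dotProduct_sub, dotProduct_smul, hξe1, smul_eq_mul, mul_one, sub_self]
      refine ⟨Real.exp L * (ξ i₀ ⬝ᵥ y₁), mul_nonneg (Real.exp_pos _).le hle.le,
        y₁ - (ξ i₀ ⬝ᵥ y₁) • e, ⟨?_, ?_, hc2.le⟩, ?_⟩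
      · refine hmem _ fun i => ?_
        by_cases hi : i = i₀
        · rw [hi, hc2]
        · rw [hc1 i hi]; exact hnn i hi y₁ hy₁K
      · intro i hi
        rw [hc1 i hi]; exact hbd i hi
      · rw [hact, smul_sub, mul_smul, sub_add_cancel]

theorem diag_cover {r n : ℕ} {φ : (Fin r → ℤ) → Matrix (Fin n) (Fin n) ℤ} (hn : 3 ≤ n)
    (K : PointedCone ℝ (Fin n → ℝ)) (hcl : IsClosed (K : Set (Fin n → ℝ)))
    (hsal : ∀ x, x ∈ K → -x ∈ K → x = 0) (hint : (interior (K : Set (Fin n → ℝ))).Nonempty)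
    (hφ : ∀ z, ∀ y ∈ K, act (φ z) y ∈ K) (e : Fin n → ℚ) (heK : ratVec e ∈ K)
    (ξ : Fin n → (Fin n → ℝ)) (i₀ : Fin n) (M : ℝ) (hξ : LinearIndependent ℝ ξ)
    (hξe : ∀ i, i ≠ i₀ → ξ i ⬝ᵥ ratVec e = 0) (hξe1 : ξ i₀ ⬝ᵥ ratVec e = 1)
    (hz : ∀ v : Fin n → ℝ, v i₀ = 0 → ∑ i, v i = 0 →
        ∃ (z : Fin r → ℤ) (τ : Fin n → ℝ), τ i₀ = 1 ∧ (∀ i, 0 < τ i) ∧
          (∀ i, |Real.log (τ i) - v i| ≤ M) ∧
          ∀ i y, ξ i ⬝ᵥ act (φ z) y = τ i * (ξ i ⬝ᵥ y)) :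
    Covered (Set.range φ) K (ratVec e) := by
  classical
  have hlim := diag_limit hn K hcl hφ ξ i₀ M hξ hz
  have he : dualb ξ i₀ = ratVec e := by
    have h1 := dualb_expand hξ (ratVec e)
    rw [Finset.sum_eq_single i₀, hξe1, one_smul] at h1
    · exact h1.symm
    · intro j _ hj
      rw [hξe j hj, zero_smul]
    · intro h; exact absurd (Finset.mem_univ _) h
  have hne : ∀ i, dualb ξ i ≠ 0 := by
    intro i h0
    have := dot_dualb hξ i i
    rw [h0, dotProduct_zero] at this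
    simp at this
  have hoff : ∀ i, ∃ x ∈ K, ξ i ⬝ᵥ x ≠ 0 := by
    intro i
    obtain ⟨x₀, hx₀⟩ := hint
    by_contra hcon
    push Not at hcon
    have hx0K := interior_subset hx₀
    have h1 : Tendsto (fun t : ℝ => x₀ + t • dualb ξ i) (𝓝[>] 0) (𝓝 (x₀ + (0 : ℝ) • dualb ξ i)) := by
      refine Tendsto.mono_left ?_ nhdsWithin_le_nhds
      exact (continuous_const.add (continuous_id.smul continuous_const)).tendsto 0
    rw [zero_smul, add_zero] at h1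
    have h2 := h1.eventually (isOpen_interior.mem_nhds hx₀)
    obtain ⟨t, ht, htpos⟩ := (h2.and self_mem_nhdsWithin).exists
    have h3 := hcon _ (interior_subset ht)
    have h4 := hcon _ hx0K
    rw [dotProduct_add, h4, zero_add, dotProduct_smul, dot_dualb hξ] at h3
    simp only [if_true, smul_eq_mul, mul_one] at h3
    exact (ne_of_gt htpos) h3
  have hsign : ∀ i, ∃ σ : ℝ, (σ = 1 ∨ σ = -1) ∧ (i = i₀ → σ = 1) ∧
      (i ≠ i₀ → ∀ x ∈ K, 0 ≤ σ * (ξ i ⬝ᵥ x)) ∧ σ • dualb ξ i ∈ K := by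
    intro i
    by_cases hi : i = i₀
    · refine ⟨1, Or.inl rfl, fun _ => rfl, fun h => absurd hi h, ?_⟩
      rw [one_smul, hi, he]; exact heK
    obtain ⟨x, hx, hx0⟩ := hoff i
    rcases lt_or_gt_of_ne hx0 with hneg | hpos
    · have h1 : -dualb ξ i ∈ K := by
        have h2 := hlim i hi x hx
        have h3 : (-(ξ i ⬝ᵥ x))⁻¹ • ((ξ i ⬝ᵥ x) • dualb ξ i) ∈ K :=
          PointedCone.smul_mem _ (inv_nonneg.2 (by linarith)) h2
        rw [smul_smul] at h3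
        have h4 : (-(ξ i ⬝ᵥ x))⁻¹ * (ξ i ⬝ᵥ x) = -1 := by
          rw [inv_neg, neg_mul, inv_mul_cancel₀ hx0]
        rw [h4, neg_smul, one_smul] at h3
        exact h3
      refine ⟨-1, Or.inr rfl, fun h => absurd h hi, fun _ y hy => ?_,
        by rw [neg_smul, one_smul]; exact h1⟩
      by_contra hcon
      push Not at hcon
      have h5 : 0 < ξ i ⬝ᵥ y := by linarith
      have h6 := hlim i hi y hy
      have h7 : (ξ i ⬝ᵥ y)⁻¹ • ((ξ i ⬝ᵥ y) • dualb ξ i) ∈ K :=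
        PointedCone.smul_mem _ (inv_nonneg.2 h5.le) h6
      rw [smul_smul, inv_mul_cancel₀ h5.ne', one_smul] at h7
      exact hne i (hsal _ h7 h1)
    · have h1 : dualb ξ i ∈ K := by
        have h2 := hlim i hi x hx
        have h3 : ((ξ i ⬝ᵥ x))⁻¹ • ((ξ i ⬝ᵥ x) • dualb ξ i) ∈ K :=
          PointedCone.smul_mem _ (inv_nonneg.2 hpos.le) h2
        rwa [smul_smul, inv_mul_cancel₀ hx0, one_smul] at h3
      refine ⟨1, Or.inl rfl, fun _ => rfl, fun _ y hy => ?_, by rw [one_smul]; exact h1⟩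
      by_contra hcon
      push Not at hcon
      have h5 : ξ i ⬝ᵥ y < 0 := by linarith
      have h6 := hlim i hi y hy
      have h7 : (-(ξ i ⬝ᵥ y))⁻¹ • ((ξ i ⬝ᵥ y) • dualb ξ i) ∈ K :=
        PointedCone.smul_mem _ (inv_nonneg.2 (by linarith)) h6
      rw [smul_smul] at h7
      have h8 : (-(ξ i ⬝ᵥ y))⁻¹ * (ξ i ⬝ᵥ y) = -1 := by
        rw [inv_neg, neg_mul, inv_mul_cancel₀ h5.ne]
      rw [h8, neg_smul, one_smul] at h7
      exact hne i (hsal _ h1 h7)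
  choose σ hσ1 hσ0 hσ2 hσ3 using hsign
  have hσσ : ∀ i, σ i * σ i = 1 := by
    intro i; rcases hσ1 i with h | h <;> rw [h] <;> norm_num
  refine diag_core hn K hcl hsal hφ (ratVec e) (fun i => σ i • ξ i) (fun i => σ i • dualb ξ i)
    i₀ M ?_ ?_ ?_ hσ3 ?_ ?_
  · intro y
    conv_lhs => rw [dualb_expand hξ y]
    refine Finset.sum_congr rfl fun j _ => ?_
    rw [smul_dotProduct, smul_smul, smul_eq_mul]
    congr 1
    have := hσσ j
    calc ξ j ⬝ᵥ y = (σ j * σ j) * (ξ j ⬝ᵥ y) := by rw [this, one_mul]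
      _ = _ := by ring
  · intro i j
    rw [smul_dotProduct, dotProduct_smul, dot_dualb hξ, smul_eq_mul, smul_eq_mul]
    by_cases h : j = i
    · subst h
      simp only [if_true, mul_one]
      exact hσσ j
    · simp [h]
  · show σ i₀ • dualb ξ i₀ = ratVec e
    rw [hσ0 i₀ rfl, one_smul, he]
  · intro i hi y hy
    rw [smul_dotProduct, smul_eq_mul]
    exact hσ2 i hi y hy
  · intro v h0 hs
    obtain ⟨z, τ, h1, h2, h3, h4⟩ := hz v h0 hs
    refine ⟨z, τ, h1, h2, h3, fun i y => ?_⟩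
    rw [smul_dotProduct, smul_dotProduct, h4, smul_eq_mul, smul_eq_mul]
    ring

end Pool.Agent.H31Cone
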