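import Pool.Agent.H31Cone.Chain

/-!
Structure of a free abelian unipotent group of rank `n - 2`.

PROOF. Write `N a = Nq φ a` (commuting, nilpotent: copy the verification of `hadd hzero hcomm
hnil` from the proof of `chars_card` in Weights5, here with `m = 1`). `S` below is over ℚ.
(a) `Wx = span {app N l x | l ≠ []}` is invariant and contains all `N a x`, so
`mover Wx = ⊤` has rank `r`; `Wx ≠ ⊤` because `exists_smaller` for `⊤` gives an invariant
`W₁ < ⊤` with all `N a v ∈ W₁`, and `Wx ≤ W₁`. `unipotent_rank` gives `r < finrank Wx`, hence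
`finrank Wx = r + 1 = n - 1`.
(b) `e ∈ Wx`: otherwise `Wx ⊔ ℚ e = ⊤`, `x = w + c e` with `w ∈ Wx`, `N a x = N a w` lies in the
`W₂ < Wx` of `exists_smaller` for `Wx`, so `Wx ≤ W₂`, contradiction.
(c) `F = {v ∈ Wx | ∀ a, N a v = 0}` has dimension at most one: `mover F = ⊥` (if `N a x ∈ F` then
`N a (N a x) = 0`, so `a = 0`) and `mover_add_le` with `W = F`, `W' = Wx` gives
`r + finrank F ≤ 0 + (r + 1)`. As `0 ≠ e ∈ F`, every `v ∈ F` is a multiple of `e`.
(d) for `W ≤ Wx` invariant: `finrank W ≤ finrank (mover W) + 1` (`mover_add_le`).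
(e) every list of length 3 kills `x`. Let `k` be the largest length of a list `l` with
`app N l x ≠ 0` (lists of length `≥ n` kill everything by `app_eq_zero`). Suppose `k ≥ 3`,
`l = a :: l'` of length `k` with `app N l x ≠ 0`, `y = app N l' x`. Then `N a y ≠ 0`, all
`N b y` are in `F` (lists of length `k + 1` kill `x`), so are multiples of `e`. `y` is not a
multiple of `e` (else `N a y = 0`), so `W = span {y, e}` is invariant, inside `Wx`, of dimension
2, and by (d) there is `b ≠ 0` with `N b x ∈ W`, `N b x = s y + t e`. Then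
`N b (N b x) = s (N b y)` and `N b y = app l' (N b x) = s (app l' y) = s (app (l' ++ l') x) = 0`
because `2 (k - 1) ≥ k + 1`. So `N b (N b x) = 0`, `b = 0`, contradiction.
(f) so `N a (N b x) ∈ F` is a multiple of `e`: first claim. By `hadd`, `N a x` is modulo `e`
additive in `a`, so `Wx` is spanned by `e` and the `N (single i 1) x`; these are `r + 1 =
finrank Wx` vectors, hence independent; together with `x ∉ Wx` (else `Wx` would be invariant
containing `x`; use the `W₁` of (a): if `x ∈ Wx ≤ W₁` ... or `app_eq_zero`-style: `x ∈ Wx` gives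
`Wx ≤ N Wx ≤ W₂ < Wx` as in (b)) they form the independent family `frame φ x e`.
-/

set_option autoImplicit false

namespace Pool.Agent.H31Cone

open Module Pool.Agent.H93Cone

section
variable {A V : Type} [AddCommGroup V] [Module ℚ V] (N : A → V →ₗ[ℚ] V)

/-- The span of the `app N l x` with `l` nonempty. -/
def Wx (x : V) : Submodule ℚ V := Submodule.span ℚ {w | ∃ l : List A, l ≠ [] ∧ w = app N l x}

lemma app_mem_Wx (x : V) (l : List A) (hl : l ≠ []) : app N l x ∈ Wx N x :=
  Submodule.subset_span ⟨l, hl, rfl⟩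

lemma Wx_inv (x : V) : ∀ a, ∀ v ∈ Wx N x, N a v ∈ Wx N x := by
  intro a v hv
  have h1 : Wx N x ≤ (Wx N x).comap (N a) := by
    refine Submodule.span_le.2 ?_
    rintro _ ⟨l, hl, rfl⟩
    show N a (app N l x) ∈ Wx N x
    rw [← app_cons]
    exact app_mem_Wx N x _ (List.cons_ne_nil _ _)
  exact h1 hv

lemma Wx_le (hcomm : ∀ a b v, N a (N b v) = N b (N a v)) (x : V) (W : Submodule ℚ V)
    (hinv : ∀ a, ∀ v ∈ W, N a v ∈ W) (hx : ∀ a, N a x ∈ W) : Wx N x ≤ W := by
  refine Submodule.span_le.2 ?_
  rintro _ ⟨l, hl, rfl⟩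
  obtain ⟨a, l', rfl⟩ := List.exists_cons_of_ne_nil hl
  rw [app_cons, app_comm N hcomm]
  exact app_mem N W hinv l' _ (hx a)

lemma Nx_mem_Wx (x : V) (a : A) : N a x ∈ Wx N x :=
  app_mem_Wx N x [a] (List.cons_ne_nil _ _)

end

/-- abstract form -/
theorem parab_abs {A V : Type} [AddCommGroup A] [Module.Free ℤ A] [Module.Finite ℤ A]
    [AddCommGroup V] [Module ℚ V] [FiniteDimensional ℚ V] (N : A → V →ₗ[ℚ] V)
    (hadd : ∀ a b v, N (a + b) v = N a (N b v) + N a v + N b v) (hzero : ∀ v, N 0 v = 0)
    (hcomm : ∀ a b v, N a (N b v) = N b (N a v)) (k : ℕ) (hnil : ∀ a v, ((N a)^[k]) v = 0)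
    (hr : finrank ℤ A + 2 = finrank ℚ V) (hr1 : 1 ≤ finrank ℤ A)
    (e : V) (he0 : e ≠ 0) (he : ∀ a, N a e = 0)
    (x : V) (hx : ∀ a, N a (N a x) = 0 → a = 0) :
    (∀ a b, ∃ c : ℚ, N a (N b x) = c • e) ∧ finrank ℚ (Wx N x) = finrank ℤ A + 1 ∧
      x ∉ Wx N x := by
  classical
  have hzl : ∀ l : List A, app N l (0 : V) = 0 := by
    intro l
    induction l with
    | nil => rfl
    | cons a l ih => rw [app_cons, ih, map_zero]
  have hinv := Wx_inv N x
  -- (a)
  have hex : ∃ a : A, a ≠ 0 := by
    by_contra hcon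
    push Not at hcon
    have : Subsingleton A := ⟨fun a b => by rw [hcon a, hcon b]⟩
    have h1 : finrank ℤ A = 0 := finrank_zero_of_subsingleton
    omega
  have hWbot : Wx N x ≠ ⊥ := by
    obtain ⟨a, ha⟩ := hex
    intro hcon
    have h1 := Nx_mem_Wx N x a
    rw [hcon, Submodule.mem_bot] at h1
    exact ha (hx a (by rw [h1, map_zero]))
  have hmover : mover N hadd hzero x (Wx N x) hinv = ⊤ := by
    rw [eq_top_iff]
    intro a _
    exact Nx_mem_Wx N x a
  have hfm : finrank ℤ (mover N hadd hzero x (Wx N x) hinv) = finrank ℤ A := by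
    rw [hmover, finrank_top]
  have hur := unipotent_rank N hadd hzero hcomm k hnil x hx (Wx N x) hWbot hinv
  have htop : finrank ℚ (Wx N x) < finrank ℚ V := by
    have hT : (⊤ : Submodule ℚ V) ≠ ⊥ := by
      intro h
      exact hWbot (le_bot_iff.1 (h ▸ le_top))
    obtain ⟨W₁, hlt, hinv1, hpush⟩ := exists_smaller N hcomm k hnil ⊤ hT (fun _ _ _ => trivial)
    have h1 : Wx N x ≤ W₁ := Wx_le N hcomm x W₁ hinv1 (fun a => hpush a x trivial)
    have h2 : finrank ℚ W₁ < finrank ℚ V := by
      have := Submodule.finrank_lt_finrank_of_lt hlt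
      rwa [finrank_top] at this
    exact lt_of_le_of_lt (Submodule.finrank_mono h1) h2
  have hfr : finrank ℚ (Wx N x) = finrank ℤ A + 1 := by omega
  -- smaller subspace of Wx
  obtain ⟨W₂, hlt2, hinv2, hpush2⟩ := exists_smaller N hcomm k hnil (Wx N x) hWbot hinv
  have hnot : ¬ ∀ a, N a x ∈ W₂ := by
    intro hcon
    exact absurd (Wx_le N hcomm x W₂ hinv2 hcon) (not_le_of_gt hlt2)
  have hxn : x ∉ Wx N x := by
    intro hcon
    exact hnot (fun a => hpush2 a x hcon)
  -- (b)
  have heW : e ∈ Wx N x := by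
    by_contra hcon
    have hlt : Wx N x < Wx N x ⊔ Submodule.span ℚ {e} := by
      refine lt_of_le_of_ne le_sup_left ?_
      intro h
      apply hcon
      rw [h]
      exact (le_sup_right : Submodule.span ℚ {e} ≤ _) (Submodule.mem_span_singleton_self e)
    have h1 := Submodule.finrank_lt_finrank_of_lt hlt
    have h2 : Wx N x ⊔ Submodule.span ℚ {e} = ⊤ := by
      apply Submodule.eq_top_of_finrank_eq
      have := Submodule.finrank_le (Wx N x ⊔ Submodule.span ℚ {e})
      omega
    have h3 : x ∈ Wx N x ⊔ Submodule.span ℚ {e} := by rw [h2]; trivial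
    obtain ⟨w, hw, v, hv, hwv⟩ := Submodule.mem_sup.1 h3
    obtain ⟨c, rfl⟩ := Submodule.mem_span_singleton.1 hv
    apply hnot
    intro a
    rw [← hwv, map_add, map_smul, he, smul_zero, add_zero]
    exact hpush2 a w hw
  -- (c)
  let F : Submodule ℚ V :=
    { carrier := {v | v ∈ Wx N x ∧ ∀ a, N a v = 0}
      zero_mem' := ⟨Submodule.zero_mem _, fun a => map_zero _⟩
      add_mem' := by
        rintro v w ⟨h1, h2⟩ ⟨h3, h4⟩
        exact ⟨Submodule.add_mem _ h1 h3, fun a => by rw [map_add, h2, h4, add_zero]⟩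
      smul_mem' := by
        rintro c v ⟨h1, h2⟩
        exact ⟨Submodule.smul_mem _ c h1, fun a => by rw [map_smul, h2, smul_zero]⟩ }
  have hFmem : ∀ v, v ∈ F ↔ v ∈ Wx N x ∧ ∀ a, N a v = 0 := fun v => Iff.rfl
  have hFle : F ≤ Wx N x := fun v hv => ((hFmem v).1 hv).1
  have hFinv : ∀ a, ∀ v ∈ F, N a v ∈ F := by
    intro a v hv
    rw [((hFmem v).1 hv).2 a]
    exact Submodule.zero_mem _
  -- (d)
  have hd : ∀ (W : Submodule ℚ V) (hinvW : ∀ a, ∀ v ∈ W, N a v ∈ W), W ≤ Wx N x →
      finrank ℚ W ≤ finrank ℤ (mover N hadd hzero x W hinvW) + 1 := by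
    intro W hinvW hle
    have := mover_add_le N hadd hzero hcomm k hnil x W (Wx N x) hle hinvW hinv
    omega
  have hFrank : finrank ℚ F ≤ 1 := by
    have h1 := hd F hFinv hFle
    have h2 : mover N hadd hzero x F hFinv = ⊥ := by
      rw [Submodule.eq_bot_iff]
      intro a ha
      rw [mem_mover] at ha
      exact hx a (((hFmem _).1 ha).2 a)
    rw [h2, finrank_bot] at h1
    omega
  have hFe : ∀ v ∈ F, ∃ c : ℚ, v = c • e := by
    have h1 : Submodule.span ℚ {e} ≤ F := by
      rw [Submodule.span_singleton_le_iff_mem]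
      exact ⟨heW, he⟩
    have h2 : Submodule.span ℚ {e} = F := by
      apply Submodule.eq_of_le_of_finrank_le h1
      rw [finrank_span_singleton he0]
      exact hFrank
    intro v hv
    rw [← h2] at hv
    obtain ⟨c, hc⟩ := Submodule.mem_span_singleton.1 hv
    exact ⟨c, hc.symm⟩
  -- (e)
  have hstep : ∀ m : ℕ, 3 ≤ m → (∀ l : List A, l.length = m + 1 → app N l x = 0) →
      ∀ l : List A, l.length = m → app N l x = 0 := by
    intro m hm hkill l hl
    by_contra hne
    obtain ⟨a, l', rfl⟩ : ∃ a l', l = a :: l' := by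
      cases l with
      | nil => simp at hl; omega
      | cons a l' => exact ⟨a, l', rfl⟩
    rw [List.length_cons] at hl
    have hl' : l' ≠ [] := by
      intro h
      rw [h, List.length_nil] at hl
      omega
    have hkill' : ∀ l : List A, m + 1 ≤ l.length → app N l x = 0 := by
      intro l hl
      have h1 : l = l.take (l.length - (m + 1)) ++ l.drop (l.length - (m + 1)) := by
        rw [List.take_append_drop]
      rw [h1, app_append, hkill, hzl]
      rw [List.length_drop]
      omega
    set y := app N l' x with hy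
    have hyW : y ∈ Wx N x := app_mem_Wx N x l' hl'
    have hNy : ∀ b, N b y ∈ F := by
      intro b
      refine ⟨hinv b _ hyW, fun c => ?_⟩
      have h1 := hkill (c :: b :: l') (by simp only [List.length_cons]; omega)
      exact h1
    have hyne : ∀ c : ℚ, y ≠ c • e := by
      intro c hc
      apply hne
      rw [app_cons, ← hy, hc, map_smul, he, smul_zero]
    have hy0 : y ≠ 0 := by
      intro h
      exact hyne 0 (by rw [h, zero_smul])
    have hind : LinearIndependent ℚ ![e, y] := by
      rw [LinearIndependent.pair_iff' he0]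
      intro c hc
      exact hyne c hc.symm
    let W : Submodule ℚ V := Submodule.span ℚ (Set.range ![e, y])
    have hWf : finrank ℚ W = 2 := by
      have := finrank_span_eq_card hind
      simpa using this
    have hmemW : ∀ v, v ∈ W ↔ ∃ s t : ℚ, v = s • y + t • e := by
      intro v
      have hr : Set.range ![e, y] = {e, y} := by
        simp [Matrix.range_cons, Matrix.range_empty, Set.pair_comm]
      show v ∈ Submodule.span ℚ (Set.range ![e, y]) ↔ _
      rw [hr, Submodule.mem_span_pair]
      constructor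
      · rintro ⟨s, t, rfl⟩
        exact ⟨t, s, add_comm _ _⟩
      · rintro ⟨s, t, rfl⟩
        exact ⟨t, s, add_comm _ _⟩
    have hWinv : ∀ a, ∀ v ∈ W, N a v ∈ W := by
      intro b v hv
      obtain ⟨s, t, rfl⟩ := (hmemW v).1 hv
      obtain ⟨c, hc⟩ := hFe _ (hNy b)
      rw [hmemW]
      refine ⟨0, s * c, ?_⟩
      rw [map_add, map_smul, map_smul, he, hc, smul_zero, add_zero, zero_smul, zero_add, smul_smul]
    have hWle : W ≤ Wx N x := by
      intro v hv
      obtain ⟨s, t, rfl⟩ := (hmemW v).1 hv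
      exact Submodule.add_mem _ (Submodule.smul_mem _ _ hyW) (Submodule.smul_mem _ _ heW)
    have h1 := hd W hWinv hWle
    obtain ⟨b, hb, hb0⟩ : ∃ b ∈ mover N hadd hzero x W hWinv, b ≠ 0 := by
      apply Submodule.exists_mem_ne_zero_of_ne_bot
      intro h
      rw [h, finrank_bot, hWf] at h1
      omega
    rw [mem_mover] at hb
    obtain ⟨s, t, hst⟩ := (hmemW _).1 hb
    have hal : app N l' e = 0 := by
      obtain ⟨c, l'', rfl⟩ := List.exists_cons_of_ne_nil hl'
      rw [app_cons, app_comm N hcomm, he, hzl]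
    have hNby : N b y = 0 := by
      rw [hy, app_comm N hcomm, hst, app_add, app_smul, app_smul, hal, smul_zero, add_zero, hy,
        ← app_append, hkill', smul_zero]
      rw [List.length_append]
      omega
    apply hb0
    apply hx
    rw [hst, map_add, map_smul, map_smul, he, hNby, smul_zero, smul_zero, add_zero]
  have hthree : ∀ l : List A, l.length = 3 → app N l x = 0 := by
    have hbig : ∀ l : List A, l.length = 3 + finrank ℚ V → app N l x = 0 := by
      intro l hl
      refine app_eq_zero N hcomm k hnil ⊤ (fun _ _ _ => trivial) l ?_ x trivial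
      rw [finrank_top]
      omega
    have hdown : ∀ j : ℕ, (∀ l : List A, l.length = 3 + j → app N l x = 0) →
        ∀ l : List A, l.length = 3 → app N l x = 0 := by
      intro j
      induction j with
      | zero => intro h; exact h
      | succ j ih =>
        intro h
        exact ih (hstep (3 + j) (by omega) h)
    exact hdown _ hbig
  refine ⟨fun a b => ?_, hfr, hxn⟩
  apply hFe
  refine ⟨hinv a _ (Nx_mem_Wx N x b), fun c => ?_⟩
  exact hthree [c, a, b] rfl

theorem parab {r n : ℕ} (hr : r + 2 = n) (hr1 : 1 ≤ r)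
    {φ : (Fin r → ℤ) → Matrix (Fin n) (Fin n) ℤ} (h : IsRep φ) (hunip : ∀ z, (φ z - 1) ^ n = 0)
    (e : Fin n → ℚ) (he0 : e ≠ 0) (he : ∀ z, qa (φ z) e = e) (x : Fin n → ℚ)
    (hx : ∀ z, Nq φ z (Nq φ z x) = 0 → z = 0) :
    (∀ a b, ∃ c : ℚ, Nq φ a (Nq φ b x) = c • e) ∧ LinearIndependent ℚ (frame φ x e) := by
  classical
  have hadd : ∀ a b v, Nq φ (a + b) v = Nq φ a (Nq φ b v) + Nq φ a v + Nq φ b v := by
    intro a b v
    rw [Nq_apply, Nq_apply, Nq_apply, Nq_apply, h.add, qa_mul, map_sub]
    abel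
  have hzero : ∀ v, Nq φ 0 v = 0 := by
    intro v
    rw [Nq_apply, h.zero, qa_one, sub_self]
  have hcomm : ∀ a b v, Nq φ a (Nq φ b v) = Nq φ b (Nq φ a v) := by
    intro a b v
    rw [Nq_apply, Nq_apply, Nq_apply, Nq_apply, map_sub, map_sub, ← qa_mul, ← qa_mul, h.comm]
    abel
  have hnil : ∀ a v, ((Nq φ a)^[n]) v = 0 := by
    intro a v
    have key : ∀ l : ℕ, ∀ v, ((Nq φ a)^[l]) v = qa ((φ a - 1) ^ l) v := by
      intro l
      induction l with
      | zero => intro v; rw [pow_zero, qa_one]; rfl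
      | succ l ih =>
        intro v
        rw [Function.iterate_succ_apply, ih, pow_succ, qa_mul, Nq_apply]
        congr 1
        have : qa (φ a - 1) v = qa (φ a) v - qa 1 v := by
          show ((φ a - 1).map (Int.cast : ℤ → ℚ)).mulVec v = _
          have e : (φ a - 1).map (Int.cast : ℤ → ℚ)
              = (φ a).map (Int.cast : ℤ → ℚ)
                - (1 : Matrix (Fin n) (Fin n) ℤ).map (Int.cast : ℤ → ℚ) := by
            ext i j; by_cases hij : i = j <;> simp [hij]
          rw [e, Matrix.sub_mulVec]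
          rfl
        rw [this, qa_one]
    rw [key, hunip]
    show ((0 : Matrix (Fin n) (Fin n) ℤ).map (Int.cast : ℤ → ℚ)).mulVec v = 0
    simp
  have he' : ∀ a, Nq φ a e = 0 := by
    intro a
    rw [Nq_apply, he, sub_self]
  have hfA : finrank ℤ (Fin r → ℤ) = r := by simp
  have hfV : finrank ℚ (Fin n → ℚ) = n := by simp
  obtain ⟨hc, hfr, hxn⟩ := parab_abs (Nq φ) hadd hzero hcomm n hnil (by rw [hfA, hfV]; exact hr)
    (by rw [hfA]; exact hr1) e he0 he' x hx
  refine ⟨hc, ?_⟩
  rw [hfA] at hfr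
  -- span
  set T : Submodule ℚ (Fin n → ℚ) := Submodule.span ℚ (Set.range (frame φ x e)) with hT
  have hmem : ∀ o, frame φ x e o ∈ T := fun o => Submodule.subset_span ⟨o, rfl⟩
  let S : Submodule ℚ (Fin n → ℚ) :=
    Submodule.span ℚ (Set.range (fun o : Option (Fin r) => frame φ x e (some o)))
  have hS : ∀ o : Option (Fin r), frame φ x e (some o) ∈ S := fun o =>
    Submodule.subset_span ⟨o, rfl⟩
  have heS : e ∈ S := hS none
  have hSinv : ∀ a, ∀ v ∈ S, Nq φ a v ∈ S := by
    intro a v hv
    have h1 : S ≤ S.comap (Nq φ a) := by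
      refine Submodule.span_le.2 ?_
      rintro _ ⟨o, rfl⟩
      show Nq φ a (frame φ x e (some o)) ∈ S
      cases o with
      | none =>
        show Nq φ a e ∈ S
        rw [he']
        exact Submodule.zero_mem _
      | some i =>
        show Nq φ a (Nq φ (Pi.single i 1) x) ∈ S
        obtain ⟨c, hc⟩ := hc a (Pi.single i 1)
        rw [hc]
        exact Submodule.smul_mem _ _ heS
    exact h1 hv
  have hmv : mover (Nq φ) hadd hzero x S hSinv = ⊤ := by
    rw [eq_top_iff]
    intro a _
    have h1 : a = ∑ i, a i • (Pi.single i (1 : ℤ) : Fin r → ℤ) := by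
      funext j
      simp [Finset.sum_apply, Pi.single_apply]
    rw [h1]
    refine Submodule.sum_mem _ fun i _ => Submodule.smul_mem _ _ ?_
    rw [mem_mover]
    exact hS (some i)
  have hWS : Wx (Nq φ) x ≤ S := by
    refine Wx_le (Nq φ) hcomm x S hSinv fun a => ?_
    have h1 : a ∈ mover (Nq φ) hadd hzero x S hSinv := by rw [hmv]; trivial
    exact h1
  have hST : S ≤ T := by
    refine Submodule.span_le.2 ?_
    rintro _ ⟨o, rfl⟩
    exact hmem (some o)
  have hlt : Wx (Nq φ) x < T := by
    refine lt_of_le_of_ne (hWS.trans hST) ?_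
    intro heq
    apply hxn
    rw [heq]
    exact hmem none
  have h1 := Submodule.finrank_lt_finrank_of_lt hlt
  have hTtop : T = ⊤ := by
    apply Submodule.eq_top_of_finrank_eq
    have := Submodule.finrank_le T
    omega
  refine linearIndependent_of_top_le_span_of_card_eq_finrank (by rw [← hT, hTtop]) ?_
  rw [Fintype.card_option, Fintype.card_option, Fintype.card_fin, hfV]
  omega

end Pool.Agent.H31Cone
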