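import Pool.Agent.H31Cone.Defs
import Pool.Agent.H93Cone.Main

/-!
The parabolic case: cocompactness.

PROOF. (1) `0 ≤ α y` for `y ∈ K`: fix `z = single i 1` for some `i` (`1 ≤ r`), `Q = ratVec (Nq φ z
(Nq φ z x)) ≠ 0`. Dividing the last identity by `k²` and letting `k → ∞`, closedness gives
`(α y / 2) Q ∈ K`; for `y = x` this is `Q / 2 ∈ K`; so `α y < 0` would put `-Q` in `K`.
If `y` is interior then `0 < α y` (`y - δ x ∈ K` for small `δ > 0`).
(2) For `β ∈ [0,1]^r` let `P` be the set of `b : Fin r → ℝ` for which there is `y ∈ interior K`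
with `α y = 1`, `β i y = b i` for all `i`, `κ y ≤ M`. `P` is convex. With
`M = max over δ ∈ {0,1}^r of κ (act (φ δ) x)` it contains `{0,1}^r` (`β i (act (φ δ) x) = δ i`,
and `act (φ δ)` preserves the interior), so it contains `[0,1]^r = convexHull {0,1}^r`
(`convexHull_pi`, `convexHull_pair`, `segment_eq_Icc`).
(3) `C = {y ∈ K | α y = 1, 0 ≤ β i y ≤ 1, κ y ≤ M}` is closed and bounded: with `f`, `c` from
`exists_pos_functional`, `y = α-part + β-part + κ y e`: write `y = κ y • e + y'` where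
`y' = y - κ y • e` has bounded coordinates (`α y' = 1`, `β i y'` in `[0,1]`, `κ y' = 0`), hence is
in a bounded set (linear injective coordinates, finite dimension), and `0 ≤ f y = κ y f e + f y'`
with `f e > 0` bounds `κ y` below.
(4) if `y ∈ C`, take `y₀` from (2) with the same `β`: `y + t e = y₀ + (κ y + t - κ y₀) e` is interior
for `t` large (interior point plus an element of `K`).
(5) for `y` interior scale to `α y = 1`, take `z i = -⌊β i y⌋`, so `β (act (φ z) y) ∈ [0,1)`. Put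
`y₁ = act (φ z) y`. If `κ y₁ ≤ M` take `w = y₁`, `t = 0`. Otherwise `w = y₀` from (2) with the
same `β`, `y₁ = w + (κ y₁ - κ w) e`.
-/

set_option autoImplicit false

namespace Pool.Agent.H31Cone

open Module Pool.Agent.H93Cone Filter Topology

lemma pc_add_int {n : ℕ} (N : PointedCone ℝ (Fin n → ℝ)) {x y : Fin n → ℝ}
    (hx : x ∈ interior (N : Set (Fin n → ℝ))) (hy : y ∈ N) :
    x + y ∈ interior (N : Set (Fin n → ℝ)) := by
  have h : (fun v : Fin n → ℝ => v + y) '' interior (N : Set (Fin n → ℝ)) ⊆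
      interior (N : Set (Fin n → ℝ)) := by
    refine interior_maximal ?_ ((Homeomorph.addRight y).isOpenMap _ isOpen_interior)
    rintro _ ⟨v, hv, rfl⟩
    exact N.add_mem (interior_subset hv) hy
  exact h ⟨x, hx, rfl⟩

lemma pc_smul_int {n : ℕ} (N : PointedCone ℝ (Fin n → ℝ)) {x : Fin n → ℝ} {t : ℝ} (ht : 0 < t)
    (hx : x ∈ interior (N : Set (Fin n → ℝ))) : t • x ∈ interior (N : Set (Fin n → ℝ)) := by
  have h : (fun v : Fin n → ℝ => t • v) '' interior (N : Set (Fin n → ℝ)) ⊆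
      interior (N : Set (Fin n → ℝ)) := by
    refine interior_maximal ?_ ((isOpenMap_smul₀ ht.ne') _ isOpen_interior)
    rintro _ ⟨v, hv, rfl⟩
    exact PointedCone.smul_mem _ ht.le (interior_subset hv)
  exact h ⟨x, hx, rfl⟩

lemma pc_act_int {r n : ℕ} {φ : (Fin r → ℤ) → Matrix (Fin n) (Fin n) ℤ} (h : IsRep φ)
    (K : PointedCone ℝ (Fin n → ℝ)) (hφ : ∀ z, ∀ y ∈ K, act (φ z) y ∈ K) (z : Fin r → ℤ)
    {x : Fin n → ℝ} (hx : x ∈ interior (K : Set (Fin n → ℝ))) :
    act (φ z) x ∈ interior (K : Set (Fin n → ℝ)) := by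
  have hinv : ∀ v, act (φ (-z)) (act (φ z) v) = v := by
    intro v
    rw [← act_mul_apply, ← h.add, neg_add_cancel, h.zero, act_one]; rfl
  have hinv' : ∀ v, act (φ z) (act (φ (-z)) v) = v := by
    intro v
    rw [← act_mul_apply, ← h.add, add_neg_cancel, h.zero, act_one]; rfl
  have hopen : IsOpen ((act (φ (-z))) ⁻¹' interior (K : Set (Fin n → ℝ))) :=
    isOpen_interior.preimage (act_continuous _)
  have hsub : (act (φ (-z))) ⁻¹' interior (K : Set (Fin n → ℝ)) ⊆
      interior (K : Set (Fin n → ℝ)) := by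
    refine interior_maximal ?_ hopen
    intro v hv
    have h1 := hφ z _ (interior_subset hv)
    rwa [hinv'] at h1
  apply hsub
  show act (φ (-z)) (act (φ z) x) ∈ interior (K : Set (Fin n → ℝ))
  rw [hinv]
  exact hx

/-- Recession direction of second order. -/
lemma quad_limit {n : ℕ} (K : PointedCone ℝ (Fin n → ℝ)) (hcl : IsClosed (K : Set (Fin n → ℝ)))
    (y v Q : Fin n → ℝ) (a : ℝ)
    (hk : ∀ k : ℕ, y + (k : ℝ) • v + ((k : ℝ) * ((k : ℝ) - 1) / 2 * a) • Q ∈ K) :
    (a / 2) • Q ∈ K := by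
  have hinv : Tendsto (fun k : ℕ => ((k : ℝ) + 1)⁻¹) atTop (𝓝 0) := by
    have := tendsto_one_div_add_atTop_nhds_zero_nat (𝕜 := ℝ)
    simpa [one_div] using this
  have h1 : Tendsto (fun k : ℕ => (((k : ℝ) + 1)⁻¹ * ((k : ℝ) + 1)⁻¹) • y +
      ((k : ℝ) + 1)⁻¹ • v + ((1 - ((k : ℝ) + 1)⁻¹) / 2 * a) • Q) atTop
      (𝓝 (((0 : ℝ) * 0) • y + (0 : ℝ) • v + ((1 - 0) / 2 * a) • Q)) := by
    refine Tendsto.add (Tendsto.add ?_ ?_) ?_
    · exact (hinv.mul hinv).smul_const _
    · exact hinv.smul_const _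
    · exact (((tendsto_const_nhds.sub hinv).div_const 2).mul_const a).smul_const _
  have h2 : (a / 2) • Q = ((0 : ℝ) * 0) • y + (0 : ℝ) • v + ((1 - 0) / 2 * a) • Q := by
    rw [zero_mul, zero_smul, zero_smul, zero_add, zero_add]
    congr 1
    ring
  rw [h2]
  refine hcl.mem_of_tendsto h1 (Filter.Eventually.of_forall fun k => ?_)
  have h3 := hk (k + 1)
  have hk0 : ((k : ℝ) + 1) ≠ 0 := by positivity
  have h4 : (((k : ℝ) + 1)⁻¹ * ((k : ℝ) + 1)⁻¹) • y +
      ((k : ℝ) + 1)⁻¹ • v + ((1 - ((k : ℝ) + 1)⁻¹) / 2 * a) • Q =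
      (((k : ℝ) + 1)⁻¹ * ((k : ℝ) + 1)⁻¹) • (y + ((k + 1 : ℕ) : ℝ) • v +
        (((k + 1 : ℕ) : ℝ) * (((k + 1 : ℕ) : ℝ) - 1) / 2 * a) • Q) := by
    have e1 : ((k : ℝ) + 1)⁻¹ = (((k : ℝ) + 1)⁻¹ * ((k : ℝ) + 1)⁻¹) * ((k : ℝ) + 1) := by
      field_simp
    have e2 : (1 - ((k : ℝ) + 1)⁻¹) / 2 * a = (((k : ℝ) + 1)⁻¹ * ((k : ℝ) + 1)⁻¹) *
        (((k : ℝ) + 1) * (((k : ℝ) + 1) - 1) / 2 * a) := by
      field_simp
    push_cast
    rw [smul_add, smul_add, smul_smul, smul_smul, ← e1, ← e2]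
  show _ ∈ (K : Set (Fin n → ℝ))
  rw [h4]
  exact PointedCone.smul_mem _ (by positivity) h3

/-- `α` is nonnegative on `K`. -/
lemma alpha_nonneg {r n : ℕ} (hr1 : 1 ≤ r)
    {φ : (Fin r → ℤ) → Matrix (Fin n) (Fin n) ℤ}
    (K : PointedCone ℝ (Fin n → ℝ)) (hcl : IsClosed (K : Set (Fin n → ℝ)))
    (hsal : ∀ x, x ∈ K → -x ∈ K → x = 0) (hφ : ∀ z, ∀ y ∈ K, act (φ z) y ∈ K)
    (x : Fin n → ℚ)
    (hxK : ratVec x ∈ interior (K : Set (Fin n → ℝ)))
    (hx : ∀ z, Nq φ z (Nq φ z x) = 0 → z = 0)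
    (α : (Fin n → ℝ) →ₗ[ℝ] ℝ)
    (hαx : α (ratVec x) = 1)
    (hpow : ∀ z (k : ℕ) y, act (φ (k • z)) y = y + (k : ℝ) • (act (φ z) y - y) +
        ((k : ℝ) * ((k : ℝ) - 1) / 2 * α y) • ratVec (Nq φ z (Nq φ z x))) :
    ∀ y ∈ K, 0 ≤ α y := by
  classical
  set z : Fin r → ℤ := Pi.single ⟨0, hr1⟩ 1 with hz
  have hz0 : z ≠ 0 := by
    intro h0
    have := congrFun h0 ⟨0, hr1⟩
    rw [hz, Pi.single_eq_same] at this
    simp at this
  set Q : Fin n → ℝ := ratVec (Nq φ z (Nq φ z x)) with hQ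
  have hQ0 : Q ≠ 0 := by
    intro h0
    apply hz0
    apply hx
    apply ratVec_injective
    rw [← hQ, h0]
    funext i
    simp [ratVec]
  have hlim : ∀ y ∈ K, (α y / 2) • Q ∈ K := by
    intro y hy
    refine quad_limit K hcl y (act (φ z) y - y) Q (α y) fun k => ?_
    have := hφ (k • z) y hy
    rwa [hpow] at this
  intro y hy
  by_contra hneg
  push Not at hneg
  have h1 := hlim _ (interior_subset hxK)
  rw [hαx] at h1
  have h2 : Q ∈ K := by
    have := PointedCone.smul_mem K (show (0 : ℝ) ≤ 2 by norm_num) h1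
    rw [smul_smul] at this
    norm_num at this
    exact this
  have h3 : -Q ∈ K := by
    have := PointedCone.smul_mem K (show (0 : ℝ) ≤ -(2 / α y) by
      rw [neg_nonneg]
      exact div_nonpos_of_nonneg_of_nonpos (by norm_num) hneg.le) (hlim y hy)
    rw [smul_smul] at this
    have e1 : -(2 / α y) * (α y / 2) = -1 := by
      field_simp [hneg.ne]
    rw [e1, neg_smul, one_smul] at this
    exact this
  exact hQ0 (hsal _ h2 h3)

theorem parab_cover {r n : ℕ} (hr : r + 2 = n) (hr1 : 1 ≤ r)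
    {φ : (Fin r → ℤ) → Matrix (Fin n) (Fin n) ℤ} (h : IsRep φ)
    (K : PointedCone ℝ (Fin n → ℝ)) (hcl : IsClosed (K : Set (Fin n → ℝ)))
    (hsal : ∀ x, x ∈ K → -x ∈ K → x = 0) (hφ : ∀ z, ∀ y ∈ K, act (φ z) y ∈ K)
    (e x : Fin n → ℚ) (he0 : e ≠ 0) (heK : ratVec e ∈ K) (he : ∀ z, qa (φ z) e = e)
    (hxK : ratVec x ∈ interior (K : Set (Fin n → ℝ)))
    (hx : ∀ z, Nq φ z (Nq φ z x) = 0 → z = 0)
    (α κ : (Fin n → ℝ) →ₗ[ℝ] ℝ) (β : Fin r → ((Fin n → ℝ) →ₗ[ℝ] ℝ))
    (hαx : α (ratVec x) = 1) (hκx : κ (ratVec x) = 0) (hβx : ∀ i, β i (ratVec x) = 0)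
    (hαe : α (ratVec e) = 0) (hκe : κ (ratVec e) = 1) (hβe : ∀ i, β i (ratVec e) = 0)
    (hker : ∀ y, α y = 0 → (∀ i, β i y = 0) → y = κ y • ratVec e)
    (hα : ∀ z y, α (act (φ z) y) = α y)
    (hβ : ∀ z i y, β i (act (φ z) y) = β i y + (z i : ℝ) * α y)
    (hpow : ∀ z (k : ℕ) y, act (φ (k • z)) y = y + (k : ℝ) • (act (φ z) y - y) +
        ((k : ℝ) * ((k : ℝ) - 1) / 2 * α y) • ratVec (Nq φ z (Nq φ z x))) :
    Covered (Set.range φ) K (ratVec e) := by
  classical
  have hαnn := alpha_nonneg hr1 K hcl hsal hφ x hxK hx α hαx hpow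
  have hακ : Continuous α := LinearMap.continuous_of_finiteDimensional _
  have hκc : Continuous κ := LinearMap.continuous_of_finiteDimensional _
  have hβc : ∀ i, Continuous (β i) := fun i => LinearMap.continuous_of_finiteDimensional _
  -- positivity in the interior
  have hαpos : ∀ y ∈ interior (K : Set (Fin n → ℝ)), 0 < α y := by
    intro y hy
    have h1 : Tendsto (fun t : ℝ => y - t • ratVec x) (𝓝[>] 0)
        (𝓝 (y - (0 : ℝ) • ratVec x)) := by
      refine Tendsto.mono_left ?_ nhdsWithin_le_nhds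
      exact (continuous_const.sub (continuous_id.smul continuous_const)).tendsto 0
    rw [zero_smul, sub_zero] at h1
    obtain ⟨t, ht, htpos⟩ := ((h1.eventually (isOpen_interior.mem_nhds hy)).and
      self_mem_nhdsWithin).exists
    have htp : (0 : ℝ) < t := htpos
    have h2 := hαnn _ (interior_subset ht)
    rw [map_sub, map_smul, hαx, smul_eq_mul, mul_one] at h2
    linarith
  -- difference of two points with the same coordinates
  have hdiff : ∀ y y' : Fin n → ℝ, α y = α y' → (∀ i, β i y = β i y') →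
      y = y' + (κ y - κ y') • ratVec e := by
    intro y y' h1 h2
    have h3 := hker (y - y') (by rw [map_sub, h1, sub_self])
      (fun i => by rw [map_sub, h2, sub_self])
    rw [map_sub] at h3
    rw [← h3]
    abel
  -- the bound M
  obtain ⟨M, hM⟩ : ∃ M : ℝ, ∀ δ : Fin r → Bool,
      κ (act (φ (fun i => if δ i then 1 else 0)) (ratVec x)) ≤ M := by
    have hfin : (Set.range fun δ : Fin r → Bool =>
        κ (act (φ (fun i => if δ i then 1 else 0)) (ratVec x))).Finite := Set.finite_range _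
    obtain ⟨M, hM⟩ := hfin.bddAbove
    exact ⟨M, fun δ => hM ⟨δ, rfl⟩⟩
  -- the set P
  have hP : ∀ b : Fin r → ℝ, (∀ i, 0 ≤ b i ∧ b i ≤ 1) →
      ∃ y ∈ interior (K : Set (Fin n → ℝ)), α y = 1 ∧ (∀ i, β i y = b i) ∧ κ y ≤ M := by
    set P : Set (Fin r → ℝ) := {b | ∃ y ∈ interior (K : Set (Fin n → ℝ)), α y = 1 ∧
      (∀ i, β i y = b i) ∧ κ y ≤ M} with hPdef
    have hconv : Convex ℝ P := by
      rintro b ⟨y, hy, h1, h2, h3⟩ b' ⟨y', hy', h1', h2', h3'⟩ s t hs ht hst
      refine ⟨s • y + t • y', ?_, ?_, ?_, ?_⟩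
      · exact (PointedCone.convex K).interior hy hy' hs ht hst
      · rw [map_add, map_smul, map_smul, h1, h1', smul_eq_mul, smul_eq_mul, mul_one, mul_one, hst]
      · intro i
        rw [map_add, map_smul, map_smul, h2, h2']
        rfl
      · rw [map_add, map_smul, map_smul, smul_eq_mul, smul_eq_mul]
        calc s * κ y + t * κ y' ≤ s * M + t * M :=
              add_le_add (mul_le_mul_of_nonneg_left h3 hs) (mul_le_mul_of_nonneg_left h3' ht)
          _ = M := by rw [← add_mul, hst, one_mul]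
    have hvert : Set.pi Set.univ (fun _ : Fin r => ({0, 1} : Set ℝ)) ⊆ P := by
      intro b hb
      have hb' : ∀ i, b i = 0 ∨ b i = 1 := fun i => hb i (Set.mem_univ i)
      set δ : Fin r → Bool := fun i => decide (b i = 1) with hδ
      refine ⟨act (φ (fun i => if δ i then 1 else 0)) (ratVec x), pc_act_int h K hφ _ hxK, ?_, ?_,
        hM δ⟩
      · rw [hα, hαx]
      · intro i
        rw [hβ, hβx, hαx, zero_add, mul_one]
        rcases hb' i with h0 | h0
        · simp [hδ, h0]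
        · simp [hδ, h0]
    have hhull : convexHull ℝ (Set.pi Set.univ (fun _ : Fin r => ({0, 1} : Set ℝ))) ⊆ P :=
      convexHull_min hvert hconv
    intro b hb
    apply hhull
    rw [convexHull_pi]
    intro i _
    rw [convexHull_pair, segment_eq_Icc zero_le_one]
    exact hb i
  obtain ⟨f, c, hc, hf⟩ := exists_pos_functional K hcl hsal
  have hfe : 0 ≤ f (ratVec e) := by
    have := hf _ heK
    have h2 : 0 ≤ c * ‖ratVec e‖ := by positivity
    linarith
  -- injective coordinates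
  set L : (Fin n → ℝ) →ₗ[ℝ] (ℝ × (Fin r → ℝ)) × ℝ := (α.prod (LinearMap.pi β)).prod κ with hL
  have hLker : LinearMap.ker L = ⊥ := by
    rw [LinearMap.ker_eq_bot']
    intro y hy
    have h1 : α y = 0 := congrArg (fun p => p.1.1) hy
    have h2 : ∀ i, β i y = 0 := fun i => congrFun (congrArg (fun p => p.1.2) hy) i
    have h3 : κ y = 0 := congrArg (fun p => p.2) hy
    rw [hker y h1 h2, h3, zero_smul]
  obtain ⟨B, hB0, hB⟩ := L.exists_antilipschitzWith hLker
  have hBn : ∀ y, ‖y‖ ≤ B * ‖L y‖ := by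
    intro y
    have := hB.le_mul_dist y 0
    rwa [dist_zero_right, map_zero, dist_zero_right] at this
  refine ⟨{y | y ∈ K ∧ α y = 1 ∧ (∀ i, 0 ≤ β i y ∧ β i y ≤ 1) ∧ κ y ≤ M}, ?_, fun y hy => hy.1,
    ?_, ?_⟩
  · -- compactness
    refine Metric.isCompact_of_isClosed_isBounded ?_ ?_
    · refine hcl.inter (IsClosed.inter ?_ (IsClosed.inter ?_ ?_))
      · exact isClosed_eq hακ continuous_const
      · have : {y : Fin n → ℝ | ∀ i, 0 ≤ β i y ∧ β i y ≤ 1} =
            ⋂ i, ({y | 0 ≤ β i y} ∩ {y | β i y ≤ 1}) := by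
          ext y; simp
        show IsClosed {y : Fin n → ℝ | ∀ i, 0 ≤ β i y ∧ β i y ≤ 1}
        rw [this]
        exact isClosed_iInter fun i => (isClosed_le continuous_const (hβc i)).inter
          (isClosed_le (hβc i) continuous_const)
      · exact isClosed_le hκc continuous_const
    · rw [isBounded_iff_forall_norm_le]
      refine ⟨(|M| * f (ratVec e) + ‖f‖ * B) / c, ?_⟩
      rintro y ⟨hyK, h1, h2, h3⟩
      set y' : Fin n → ℝ := y - κ y • ratVec e with hy'
      have hLy' : ‖L y'‖ ≤ 1 := by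
        have e1 : L y' = ((1, fun i => β i y), 0) := by
          rw [hL]
          refine Prod.ext (Prod.ext ?_ ?_) ?_
          · show α y' = 1
            rw [hy', map_sub, map_smul, hαe, smul_zero, sub_zero, h1]
          · funext i
            show β i y' = β i y
            rw [hy', map_sub, map_smul, hβe, smul_zero, sub_zero]
          · show κ y' = 0
            rw [hy', map_sub, map_smul, hκe, smul_eq_mul, mul_one, sub_self]
        rw [e1]
        refine norm_prod_le_iff.2 ⟨norm_prod_le_iff.2 ⟨by simp, ?_⟩, by simp⟩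
        rw [pi_norm_le_iff_of_nonneg zero_le_one]
        intro i
        show ‖β i y‖ ≤ 1
        rw [Real.norm_eq_abs, abs_le]
        have := h2 i
        constructor <;> linarith
      have hy'n : ‖y'‖ ≤ B := by
        refine (hBn y').trans ?_
        have := mul_le_mul_of_nonneg_left hLy' (NNReal.coe_nonneg B)
        rwa [mul_one] at this
      have h4 : f y = κ y * f (ratVec e) + f y' := by
        rw [hy', map_sub, map_smul, smul_eq_mul]; ring
      have h5 : f y' ≤ ‖f‖ * B := by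
        calc f y' ≤ |f y'| := le_abs_self _
          _ ≤ ‖f‖ * ‖y'‖ := f.le_opNorm y'
          _ ≤ ‖f‖ * B := mul_le_mul_of_nonneg_left hy'n (norm_nonneg _)
      have h6 : κ y * f (ratVec e) ≤ |M| * f (ratVec e) :=
        mul_le_mul_of_nonneg_right (h3.trans (le_abs_self M)) hfe
      rw [le_div_iff₀ hc]
      have h7 := hf y hyK
      linarith
  · rintro y ⟨hyK, h1, h2, h3⟩
    obtain ⟨y₀, hy₀, g1, g2, g3⟩ := hP (fun i => β i y) h2
    have h4 := hdiff y y₀ (by rw [h1, g1]) (fun i => (g2 i).symm)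
    refine ⟨max 0 (κ y₀ - κ y), le_max_left _ _, ?_⟩
    have h5 : y + max 0 (κ y₀ - κ y) • ratVec e =
        y₀ + (max 0 (κ y₀ - κ y) - (κ y₀ - κ y)) • ratVec e := by
      calc y + max 0 (κ y₀ - κ y) • ratVec e =
          (y₀ + (κ y - κ y₀) • ratVec e) + max 0 (κ y₀ - κ y) • ratVec e := by rw [← h4]
        _ = _ := by module
    rw [h5]
    exact pc_add_int K hy₀ (PointedCone.smul_mem _ (sub_nonneg.2 (le_max_right _ _)) heK)
  · intro y hy
    have ha := hαpos y hy
    set a : ℝ := α y with hadef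
    set y₁ : Fin n → ℝ := a⁻¹ • y with hy₁
    set z : Fin r → ℤ := fun i => -⌊β i y₁⌋ with hz
    set y₂ : Fin n → ℝ := act (φ z) y₁ with hy₂
    have hα₁ : α y₁ = 1 := by
      rw [hy₁, map_smul, ← hadef, smul_eq_mul, inv_mul_cancel₀ ha.ne']
    have hα₂ : α y₂ = 1 := by rw [hy₂, hα, hα₁]
    have hβ₂ : ∀ i, β i y₂ = Int.fract (β i y₁) := by
      intro i
      rw [hy₂, hβ, hα₁, mul_one, hz, Int.fract]
      push_cast
      ring
    have hbox : ∀ i, 0 ≤ β i y₂ ∧ β i y₂ ≤ 1 := by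
      intro i
      rw [hβ₂]
      exact ⟨Int.fract_nonneg _, (Int.fract_lt_one _).le⟩
    have hint₂ : y₂ ∈ interior (K : Set (Fin n → ℝ)) :=
      pc_act_int h K hφ _ (pc_smul_int K (inv_pos.2 ha) hy)
    have hay : act (φ z) y = a • y₂ := by
      rw [hy₂, hy₁, map_smul, smul_smul, mul_inv_cancel₀ ha.ne', one_smul]
    refine ⟨φ z, ⟨z, rfl⟩, a, ha, ?_⟩
    by_cases hM₂ : κ y₂ ≤ M
    · refine ⟨0, le_refl _, y₂, ⟨interior_subset hint₂, hα₂, hbox, hM₂⟩, ?_⟩
      rw [hay, zero_smul, add_zero]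
    · push Not at hM₂
      obtain ⟨y₀, hy₀, g1, g2, g3⟩ := hP (fun i => β i y₂) hbox
      have h4 := hdiff y₂ y₀ (by rw [hα₂, g1]) (fun i => (g2 i).symm)
      refine ⟨a * (κ y₂ - κ y₀), mul_nonneg ha.le (by linarith), y₀,
        ⟨interior_subset hy₀, g1, fun i => by rw [g2]; exact hbox i, g3⟩, ?_⟩
      rw [hay]
      calc a • y₂ = a • (y₀ + (κ y₂ - κ y₀) • ratVec e) := by rw [← h4]
        _ = _ := by rw [smul_add, smul_smul]

end Pool.Agent.H31Cone
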