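import Pool.Agent.H31Cone.Defs
import Pool.Agent.H93Cone.Main

/-!
Real coordinates adapted to the frame.

PROOF. `frame φ x e` is an independent family of `r + 2 = n` rational vectors, so the real vectors
`ratVec (frame φ x e o)` form a basis of `Fin n → ℝ` (determinant, or
`LinearIndependent` over ℚ of rational vectors implies over ℝ). Let `α, κ, β i` be the dual
coordinates of `x, e, N_i x`. Since `act (φ z)` is linear all identities need only be checked on
the basis. On rational vectors `act (φ z) (ratVec v) = ratVec (qa (φ z) v)` (`ratVec_qa` in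
H93Cone.Main), `qa (φ z) v = v + Nq φ z v`. `Nq φ z e = 0`; `Nq φ z (N_i x)` is a multiple of
`e` by `h2`; `Nq φ z x = ∑ z_i N_i x + (multiple of e)`: from
`Nq φ (a + b) x = Nq φ a (Nq φ b x) + Nq φ a x + Nq φ b x` modulo `e` the map `z ↦ Nq φ z x` is
additive. The last identity: by induction on `k` (or on the basis: `N_z³ = 0`); for `y = x` use
`Nq φ z (Nq φ z x) = c e` is fixed, for `y = N_i x` and `y = e` the vector `act (φ z) y - y` is
fixed and `α y = 0`.
-/

set_option autoImplicit false

namespace Pool.Agent.H31Cone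

open Module Pool.Agent.H93Cone

/-- Independent rational vectors forming a square matrix are independent over the reals. -/
lemma ratVec_indep {n : ℕ} {ι : Type} [Fintype ι] (hι : Fintype.card ι = n)
    (f : ι → Fin n → ℚ) (hf : LinearIndependent ℚ f) :
    LinearIndependent ℝ (fun i => ratVec (f i)) := by
  classical
  let σ : Fin n ≃ ι := (Fintype.equivFinOfCardEq hι).symm
  let A : Matrix (Fin n) (Fin n) ℚ := Matrix.of (fun i => f (σ i))
  have h1 : LinearIndependent ℚ A.row := by
    show LinearIndependent ℚ (f ∘ σ)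
    exact (linearIndependent_equiv σ).2 hf
  rw [Matrix.linearIndependent_rows_iff_isUnit] at h1
  have h2 : IsUnit (A.map (Rat.castHom ℝ)) := by
    have := h1.map (Rat.castHom ℝ).mapMatrix
    exact this
  rw [← Matrix.linearIndependent_rows_iff_isUnit] at h2
  have h3 : LinearIndependent ℝ ((fun i => ratVec (f i)) ∘ σ) := h2
  exact (linearIndependent_equiv σ).1 h3

theorem parab_real {r n : ℕ} (hr : r + 2 = n)
    {φ : (Fin r → ℤ) → Matrix (Fin n) (Fin n) ℤ} (h : IsRep φ)
    (e : Fin n → ℚ) (he : ∀ z, qa (φ z) e = e) (x : Fin n → ℚ)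
    (h2 : ∀ a b, ∃ c : ℚ, Nq φ a (Nq φ b x) = c • e)
    (hind : LinearIndependent ℚ (frame φ x e)) :
    ∃ (α κ : (Fin n → ℝ) →ₗ[ℝ] ℝ) (β : Fin r → ((Fin n → ℝ) →ₗ[ℝ] ℝ)),
      α (ratVec x) = 1 ∧ κ (ratVec x) = 0 ∧ (∀ i, β i (ratVec x) = 0) ∧
      α (ratVec e) = 0 ∧ κ (ratVec e) = 1 ∧ (∀ i, β i (ratVec e) = 0) ∧
      (∀ y, α y = 0 → (∀ i, β i y = 0) → y = κ y • ratVec e) ∧
      (∀ z y, α (act (φ z) y) = α y) ∧
      (∀ z i y, β i (act (φ z) y) = β i y + (z i : ℝ) * α y) ∧
      (∀ z (k : ℕ) y, act (φ (k • z)) y = y + (k : ℝ) • (act (φ z) y - y) +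
        ((k : ℝ) * ((k : ℝ) - 1) / 2 * α y) • ratVec (Nq φ z (Nq φ z x))) := by
  classical
  have hcard : Fintype.card (Option (Option (Fin r))) = n := by
    rw [Fintype.card_option, Fintype.card_option, Fintype.card_fin]
    omega
  have hindR := ratVec_indep hcard _ hind
  let b : Basis (Option (Option (Fin r))) ℝ (Fin n → ℝ) :=
    basisOfLinearIndependentOfCardEqFinrank hindR (by rw [hcard]; simp)
  have hb : ∀ o, b o = ratVec (frame φ x e o) := by
    intro o
    simp only [b, coe_basisOfLinearIndependentOfCardEqFinrank]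
  have hbx : b none = ratVec x := hb none
  have hbe : b (some none) = ratVec e := hb (some none)
  have hbi : ∀ i, b (some (some i)) = ratVec (Nq φ (Pi.single i 1) x) := fun i => hb _
  -- coordinates
  have hco : ∀ o o', b.coord o (b o') = if o' = o then 1 else 0 := by
    intro o o'
    rw [Basis.coord_apply, Basis.repr_self, Finsupp.single_apply]
  -- additivity mod e
  have hadd : ∀ a b v, Nq φ (a + b) v = Nq φ a (Nq φ b v) + Nq φ a v + Nq φ b v := by
    intro a b v
    rw [Nq_apply, Nq_apply, Nq_apply, Nq_apply, h.add, qa_mul, map_sub]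
    abel
  have hNe : ∀ a, Nq φ a e = 0 := by
    intro a
    rw [Nq_apply, he, sub_self]
  let M : AddSubgroup (Fin r → ℤ) :=
    { carrier := {z | ∃ c : ℚ, Nq φ z x = ∑ i, (z i : ℚ) • Nq φ (Pi.single i 1) x + c • e}
      zero_mem' := by
        refine ⟨0, ?_⟩
        rw [Nq_apply, h.zero, qa_one, sub_self]
        simp
      add_mem' := by
        rintro z w ⟨c, hc⟩ ⟨d, hd⟩
        obtain ⟨f, hf⟩ := h2 z w
        refine ⟨f + c + d, ?_⟩
        rw [hadd, hf, hc, hd]
        simp only [Pi.add_apply, Int.cast_add, add_smul, Finset.sum_add_distrib]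
        abel
      neg_mem' := by
        rintro z ⟨c, hc⟩
        obtain ⟨f, hf⟩ := h2 (-z) z
        refine ⟨-f - c, ?_⟩
        have h1 := hadd (-z) z x
        rw [neg_add_cancel, Nq_apply, h.zero, qa_one, sub_self, hf, hc] at h1
        have h3 : Nq φ (-z) x = - (∑ i, (z i : ℚ) • Nq φ (Pi.single i 1) x) + (-f - c) • e := by
          have h4 : Nq φ (-z) x = (f • e + Nq φ (-z) x +
              (∑ i, (z i : ℚ) • Nq φ (Pi.single i 1) x + c • e)) - f • e -
              (∑ i, (z i : ℚ) • Nq φ (Pi.single i 1) x + c • e) := by abel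
          rw [h4, ← h1, sub_smul, neg_smul]
          abel
        rw [h3]
        simp only [Pi.neg_apply, Int.cast_neg, neg_smul, Finset.sum_neg_distrib] }
  have hMtop : ∀ z, z ∈ M := by
    intro z
    have h1 : z = ∑ i, z i • (Pi.single i (1 : ℤ) : Fin r → ℤ) := by
      funext j
      simp [Finset.sum_apply, Pi.single_apply]
    rw [h1]
    refine AddSubgroup.sum_mem _ fun i _ => AddSubgroup.zsmul_mem _ ?_ _
    refine ⟨0, ?_⟩
    rw [zero_smul, add_zero, Finset.sum_eq_single i]
    · simp
    · intro j _ hj
      rw [Pi.single_eq_of_ne hj]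
      simp
    · intro hi
      exact absurd (Finset.mem_univ i) hi
  have hactq : ∀ z v, act (φ z) (ratVec v) = ratVec v + ratVec (Nq φ z v) := by
    intro z v
    rw [← ratVec_qa, ← ratVec_add, Nq_apply]
    congr 1
    abel
  have hacte : ∀ z, act (φ z) (ratVec e) = ratVec e := by
    intro z
    rw [← ratVec_qa, he]
  have hratsum : ∀ (g : Fin r → (Fin n → ℚ)), ratVec (∑ i, g i) = ∑ i, ratVec (g i) := by
    intro g
    funext j
    simp [ratVec, Finset.sum_apply]
  have hactx : ∀ z, ∃ c : ℝ, act (φ z) (b none) =
      b none + (∑ i, (z i : ℝ) • b (some (some i)) + c • b (some none)) := by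
    intro z
    obtain ⟨c, hc⟩ := hMtop z
    refine ⟨c, ?_⟩
    rw [hbx, hactq, hc, ratVec_add, hratsum, ratVec_smul, hbe]
    congr 2
    refine Finset.sum_congr rfl fun i _ => ?_
    rw [ratVec_smul, hbi]
    norm_num
  have hacti : ∀ z i, ∃ c : ℝ, act (φ z) (b (some (some i))) =
      b (some (some i)) + c • b (some none) := by
    intro z i
    obtain ⟨c, hc⟩ := h2 z (Pi.single i 1)
    refine ⟨c, ?_⟩
    rw [hbi, hactq, hc, ratVec_smul, hbe]
  have hactee : ∀ z, act (φ z) (b (some none)) = b (some none) := by
    intro z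
    rw [hbe, hacte]
  have hα : ∀ z y, b.coord none (act (φ z) y) = b.coord none y := by
    intro z y
    have : b.coord none ∘ₗ act (φ z) = b.coord none := by
      apply b.ext
      intro o
      rw [LinearMap.comp_apply]
      rcases o with _ | _ | i
      · obtain ⟨c, hc⟩ := hactx z
        rw [hc]
        simp only [map_add, map_sum, map_smul, hco]
        simp
      · rw [hactee]
      · obtain ⟨c, hc⟩ := hacti z i
        rw [hc]
        simp only [map_add, map_smul, hco]
        simp
    exact congrArg (fun f => f y) this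
  refine ⟨b.coord none, b.coord (some none), fun i => b.coord (some (some i)), ?_, ?_, ?_, ?_, ?_,
    ?_, ?_, hα, ?_, ?_⟩
  · rw [← hbx, hco]; simp
  · rw [← hbx, hco]; simp
  · intro i
    rw [← hbx, hco]; simp
  · rw [← hbe, hco]; simp
  · rw [← hbe, hco]; simp
  · intro i
    rw [← hbe, hco]; simp
  · intro y hy hyi
    have h1 := b.sum_repr y
    rw [Fintype.sum_option, Fintype.sum_option] at h1
    simp only [Basis.coord_apply] at hy hyi ⊢
    rw [hy, zero_smul, zero_add, Finset.sum_eq_zero (fun i _ => by rw [hyi, zero_smul]),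
      add_zero, hbe] at h1
    exact h1.symm
  · intro z i y
    have : b.coord (some (some i)) ∘ₗ act (φ z) =
        b.coord (some (some i)) + (z i : ℝ) • b.coord none := by
      apply b.ext
      intro o
      rw [LinearMap.comp_apply, LinearMap.add_apply, LinearMap.smul_apply]
      rcases o with _ | _ | j
      · obtain ⟨c, hc⟩ := hactx z
        rw [hc]
        simp only [map_add, map_sum, map_smul, hco]
        simp
      · rw [hactee]
        simp only [hco]
        simp
      · obtain ⟨c, hc⟩ := hacti z j
        rw [hc]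
        simp only [map_add, map_smul, hco]
        simp
    have h1 := congrArg (fun f => f y) this
    exact h1
  · intro z k y
    set w : Fin n → ℝ := ratVec (Nq φ z (Nq φ z x)) with hw
    have hwfix : act (φ z) w = w := by
      obtain ⟨c, hc⟩ := h2 z z
      rw [hw, hc, ratVec_smul, map_smul, hacte]
    have hD : ∀ y, act (φ z) (act (φ z) y - y) = (act (φ z) y - y) + (b.coord none y) • w := by
      intro y
      have : act (φ z) ∘ₗ (act (φ z) - LinearMap.id) =
          (act (φ z) - LinearMap.id) + (b.coord none).smulRight w := by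
        apply b.ext
        intro o
        simp only [LinearMap.comp_apply, LinearMap.add_apply, LinearMap.sub_apply,
          LinearMap.id_apply, LinearMap.smulRight_apply]
        rcases o with _ | _ | j
        · rw [hco, if_pos rfl, one_smul, hbx, hactq, add_sub_cancel_left, hactq]
        · rw [hactee, sub_self, map_zero, hco, if_neg (by simp), zero_smul, add_zero]
        · obtain ⟨c, hc⟩ := hacti z j
          rw [hc, hco, if_neg (by simp), zero_smul, add_zero, add_sub_cancel_left, map_smul,
            hactee]
      have h1 := congrArg (fun f => f y) this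
      exact h1
    induction k with
    | zero =>
      rw [zero_smul, h.zero]
      simp
    | succ k ih =>
      have e1 : φ ((k + 1) • z) = φ z * φ (k • z) := by
        rw [succ_nsmul, add_comm, h.add]
      rw [e1, act_mul_apply, ih, map_add, map_add, map_smul, map_smul, hwfix, hD]
      have e2 : act (φ z) y = y + (act (φ z) y - y) := by abel
      set D := act (φ z) y - y with hDd
      rw [e2]
      push_cast
      module

end Pool.Agent.H31Cone
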