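import Pool.Agent.H31Cone.Asm
import Pool.Agent.H55.Cone.Big
import Pool.Agent.H31Cone.Parab
import Pool.Agent.H31Cone.ParabReal
import Pool.Agent.H31Cone.ParabCover
import Pool.Agent.H31Cone.Cases
import Pool.Agent.H31Cone.DiagChars
import Pool.Agent.H31Cone.DiagCover

/-!
Main theorem: a pair whose anticanonical class is nef, with a free abelian group of rank
`n - 2`.
-/

set_option autoImplicit false

namespace Pool.Agent.H31Cone

open Module Filter Topology Pool.Agent.H93Cone Pool.Agent.H55.Cone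

variable {n : ℕ}

/-- Cocompactness for a free abelian group of rank `n - 2` fixing `e`. -/
theorem covered {r : ℕ} (hr : r + 2 = n) (hr1 : 1 ≤ r)
    {φ : (Fin r → ℤ) → Matrix (Fin n) (Fin n) ℤ} (h : IsRep φ) (hinj : Function.Injective φ)
    (K : PointedCone ℝ (Fin n → ℝ)) (hcl : IsClosed (K : Set (Fin n → ℝ)))
    (hsal : ∀ x, x ∈ K → -x ∈ K → x = 0) (hint : (interior (K : Set (Fin n → ℝ))).Nonempty)
    (hφ : ∀ z, ∀ y ∈ K, act (φ z) y ∈ K)
    (e : Fin n → ℚ) (he0 : e ≠ 0) (heK : ratVec e ∈ K)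
    (hfix : ∀ z, act (φ z) (ratVec e) = ratVec e) :
    Covered (Set.range φ) K (ratVec e) := by
  classical
  have he : ∀ z, qa (φ z) e = e := by
    intro z
    have h1 := hfix z
    rw [← ratVec_qa] at h1
    funext i
    have h2 := congrFun h1 i
    simp only [ratVec] at h2
    exact_mod_cast h2
  obtain ⟨x, hx⟩ := exists_rat_point isOpen_interior hint
  have hx2 : ∀ z, Nq φ z (Nq φ z x) = 0 → z = 0 :=
    fun z hz => no_square h hinj K hcl hsal hφ x hx z hz
  haveI : Finite (Chars φ) := chars_finite h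
  haveI : Fintype (Chars φ) := Fintype.ofFinite _
  rcases two_cases hr hr1 h e he0 he x hx2 with hA | ⟨hcard, hfin⟩
  · obtain ⟨h2, hind⟩ := parab hr hr1 h hA e he0 he x hx2
    obtain ⟨α, κ, β, h3, h4, h5, h6, h7, h8, h9, h10, h11, h12⟩ :=
      parab_real hr h e he x h2 hind
    exact parab_cover hr hr1 h K hcl hsal hφ e x he0 heK he hx hx2 α κ β h3 h4 h5 h6 h7 h8 h9
      h10 h11 h12
  · obtain ⟨ξ, i₀, M, h1, h2, h3, h4⟩ :=
      diag_chars hr hr1 h (triv_mem h e he0 he) hcard hfin e he0 he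
    exact diag_cover (by omega) K hcl hsal hint hφ e heK ξ i₀ M h1 h2 h3 h4

theorem main (hn : 3 ≤ n)
    (Nef Eff : PointedCone ℝ (Fin n → ℝ)) (D : Set (Fin n → ℤ))
    (hNef : IsClosed (Nef : Set (Fin n → ℝ)))
    (hample : (interior (Nef : Set (Fin n → ℝ))).Nonempty)
    (hEff : Eff = PointedCone.hull ℝ (intVec '' D))
    (hampleEff : interior (Nef : Set (Fin n → ℝ)) ⊆ (Eff : Set (Fin n → ℝ)))
    (hsal : ∀ x, x ∈ closure (Eff : Set (Fin n → ℝ)) → -x ∈ closure (Eff : Set (Fin n → ℝ)) →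
      x = 0)
    (G : Subgroup (GL (Fin n) ℤ))
    (hGNef : ∀ g ∈ G, ∀ x ∈ Nef, act g.val x ∈ Nef)
    (hGEff : ∀ g ∈ G, ∀ x ∈ Eff, act g.val x ∈ Eff)
    (e : Fin n → ℚ) (he0 : e ≠ 0) (heN : ratVec e ∈ Nef) (heE : ratVec e ∈ Eff)
    (hGe : ∀ g ∈ G, act g.val (ratVec e) = ratVec e)
    (hloc : ∀ x ∈ Nef, ∀ t : ℝ, 0 ≤ t →
      x + t • ratVec e ∈ interior (Eff : Set (Fin n → ℝ)) →
      ∃ S : Finset (Fin n → ℚ),
        ratCone S ⊆ (Nef : Set (Fin n → ℝ)) ∩ (Eff : Set (Fin n → ℝ)) ∧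
        ratCone S ∈ 𝓝[(Nef : Set (Fin n → ℝ))] x)
    (φ : Multiplicative (Fin (n - 2) → ℤ) →* G) (hφ : Function.Injective φ) :
    HasDomain G ((Nef : Set (Fin n → ℝ)) ∩ Eff) := by
  classical
  have hfinal := (final Nef Eff D hample hEff hampleEff hsal G hGNef hGEff).2.1
  rw [hfinal]
  -- salience of the nef cone
  have hNE : (Nef : Set (Fin n → ℝ)) ⊆ closure (Eff : Set (Fin n → ℝ)) := by
    intro x hx
    obtain ⟨a, ha⟩ := hample
    have h1 : Tendsto (fun k : ℕ => x + ((k : ℝ) + 1)⁻¹ • a) atTop (𝓝 (x + (0 : ℝ) • a)) := by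
      have h2 : Tendsto (fun k : ℕ => ((k : ℝ) + 1)⁻¹) atTop (𝓝 0) := by
        have := tendsto_one_div_add_atTop_nhds_zero_nat (𝕜 := ℝ)
        simpa [one_div] using this
      exact (h2.smul_const a).const_add x
    rw [zero_smul, add_zero] at h1
    refine mem_closure_of_tendsto h1 (Eventually.of_forall fun k => ?_)
    apply hampleEff
    rw [add_comm]
    exact add_mem_interior Nef (smul_mem_interior Nef ha (by positivity)) hx
  have hsalN : ∀ x, x ∈ Nef → -x ∈ Nef → x = 0 := fun x h1 h2 => hsal x (hNE h1) (hNE h2)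
  -- the representation
  let ψ : (Fin (n - 2) → ℤ) → Matrix (Fin n) (Fin n) ℤ :=
    fun z => (φ (Multiplicative.ofAdd z) : GL (Fin n) ℤ).val
  have hrep : IsRep ψ := by
    constructor
    · show (φ (Multiplicative.ofAdd 0) : GL (Fin n) ℤ).val = 1
      rw [ofAdd_zero, map_one]
      rfl
    · intro z w
      show (φ (Multiplicative.ofAdd (z + w)) : GL (Fin n) ℤ).val = _
      rw [ofAdd_add, map_mul]
      rfl
  have hinj : Function.Injective ψ := by
    intro z w hzw
    have h1 : (φ (Multiplicative.ofAdd z) : GL (Fin n) ℤ) = φ (Multiplicative.ofAdd w) :=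
      Units.ext hzw
    have h2 := hφ (Subtype.ext h1)
    exact Multiplicative.ofAdd.injective h2
  have hcov : Covered (Set.range ψ) Nef (ratVec e) :=
    covered (by omega) (by omega) hrep hinj Nef hNef hsalN hample
      (fun z y hy => hGNef _ (φ (Multiplicative.ofAdd z)).2 y hy) e he0 heN
      (fun z => hGe _ (φ (Multiplicative.ofAdd z)).2)
  refine assemble Nef Eff hampleEff G e heN heE hloc (Set.range ψ) ?_ hcov
  rintro _ ⟨z, rfl⟩
  exact ⟨_, (φ (Multiplicative.ofAdd z)).2, rfl⟩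

end Pool.Agent.H31Cone
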