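import Pool.Agent.H31Cone.Main

/-!
The cone conjecture for pairs with nef, not numerically trivial anticanonical class and a free
abelian group of automorphisms of rank `n - 2`, the largest possible rank in this case.

`Fin n → ℝ` is the real Neron-Severi space with its lattice of integral vectors, `Nef` the nef
cone, `Eff` the cone spanned by the classes `D` of effective divisors (not closed up), `G` the
image of the automorphism group of the pair, `e` the anticanonical class.
-/

namespace Pool.Agent.H31Cone.NefAnticanonicalResult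

open Topology Pool.Agent.H93Cone

variable {n : ℕ}

/-- The convex cone spanned by finitely many rational vectors. -/
def cone (S : Finset (Fin n → ℚ)) : Set (Fin n → ℝ) :=
  (PointedCone.hull ℝ (ratVec '' (S : Set (Fin n → ℚ))) : PointedCone ℝ (Fin n → ℝ))

/-- `A` contains no line through the origin. -/
def Salient (A : Set (Fin n → ℝ)) : Prop := ∀ x ∈ A, -x ∈ A → x = 0

/-- Every element of `G` maps `A` into itself. -/
def Preserves (G : Subgroup (GL (Fin n) ℤ)) (A : Set (Fin n → ℝ)) : Prop :=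
  ∀ g ∈ G, ∀ x ∈ A, act g.val x ∈ A

/-- Every `x` in `Nef` with `x + t v` in the interior of `Eff` for some `t ≥ 0` has a neighbourhood
in `Nef` which is a rational polyhedral cone contained in `Nef ∩ Eff`. -/
def LocallyPolyhedral (Nef Eff : Set (Fin n → ℝ)) (v : Fin n → ℝ) : Prop :=
  ∀ x ∈ Nef, ∀ t : ℝ, 0 ≤ t → x + t • v ∈ interior Eff →
    ∃ S : Finset (Fin n → ℚ), cone S ⊆ Nef ∩ Eff ∧ cone S ∈ 𝓝[Nef] x

/-- `G` acts on `A` with a rational polyhedral fundamental domain contained in `A`. -/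
def HasDomain (G : Subgroup (GL (Fin n) ℤ)) (A : Set (Fin n → ℝ)) : Prop :=
  ∃ S : Finset (Fin n → ℚ), cone S ⊆ A ∧ A = ⋃ g ∈ G, act g.val '' cone S ∧
    ∀ g ∈ G, g ≠ 1 → interior (cone S) ∩ interior (act g.val '' cone S) = ∅

theorem result {n : ℕ} (hn : 3 ≤ n)
    (Nef Eff : PointedCone ℝ (Fin n → ℝ)) (D : Set (Fin n → ℤ))
    (hNef : IsClosed (Nef : Set (Fin n → ℝ)))
    (hample : (interior (Nef : Set (Fin n → ℝ))).Nonempty)
    (hEff : Eff = PointedCone.hull ℝ (intVec '' D))
    (hampleEff : interior (Nef : Set (Fin n → ℝ)) ⊆ (Eff : Set (Fin n → ℝ)))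
    (hsal : Salient (closure (Eff : Set (Fin n → ℝ))))
    (G : Subgroup (GL (Fin n) ℤ))
    (hGNef : Preserves G (Nef : Set (Fin n → ℝ)))
    (hGEff : Preserves G (Eff : Set (Fin n → ℝ)))
    (e : Fin n → ℚ) (he0 : e ≠ 0) (heNef : ratVec e ∈ Nef) (heEff : ratVec e ∈ Eff)
    (hGe : ∀ g ∈ G, act g.val (ratVec e) = ratVec e)
    (hloc : LocallyPolyhedral (Nef : Set (Fin n → ℝ)) (Eff : Set (Fin n → ℝ)) (ratVec e))
    (φ : Multiplicative (Fin (n - 2) → ℤ) →* G) (hφ : Function.Injective φ) :
    HasDomain G ((Nef : Set (Fin n → ℝ)) ∩ (Eff : Set (Fin n → ℝ))) :=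
  Pool.Agent.H31Cone.main hn Nef Eff D hNef hample hEff hampleEff hsal G hGNef hGEff e he0 heNef
    heEff hGe hloc φ hφ

end Pool.Agent.H31Cone.NefAnticanonicalResult
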